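import Mathlib

/-! # Project WE, job ABEL: Fejér average and Abel average of a stationary curve -/

set_option autoImplicit false

open scoped BigOperators Topology InnerProductSpace
open MeasureTheory Set

namespace Pool.Agent.Q222.WE

variable {E : Type} [NormedAddCommGroup E] [InnerProductSpace ℂ E]

/-- the integrand of the Abel average -/
noncomputable def ga (B : ℝ → E) (T τ s : ℝ) : E := Real.exp (-s) • B (τ + s * T)

/-- the Abel average -/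
noncomputable def Ab (B : ℝ → E) (T τ : ℝ) : E := ∫ s in Ioi (0 : ℝ), ga B T τ s

theorem int_exp : IntegrableOn (fun s : ℝ => Real.exp (-s)) (Ioi 0) := by
  simpa using integrableOn_exp_mul_Ioi (a := -1) (by norm_num) 0

theorem ga_int {B : ℝ → E} {M T : ℝ} (hB : Continuous B) (hM : ∀ t, ‖B t‖ ≤ M) (τ : ℝ) :
    IntegrableOn (ga B T τ) (Ioi 0) := by
  have hc : Continuous (ga B T τ) := by
    unfold ga
    fun_prop
  refine Integrable.mono' (int_exp.mul_const M) hc.aestronglyMeasurable (ae_of_all _ fun s => ?_)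
  unfold ga
  rw [norm_smul, Real.norm_of_nonneg (Real.exp_pos _).le]
  exact mul_le_mul_of_nonneg_left (hM _) (Real.exp_pos _).le

/-- the exponentially damped curve -/
noncomputable def Fe (B : ℝ → E) (T v : ℝ) : E := Real.exp (-(v / T)) • B v

theorem Fe_int {B : ℝ → E} {M T : ℝ} (hB : Continuous B) (hM : ∀ t, ‖B t‖ ≤ M) (hT : 0 < T) (a : ℝ) :
    IntegrableOn (Fe B T) (Ioi a) := by
  have hc : Continuous (Fe B T) := by
    unfold Fe
    fun_prop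
  have h1 : IntegrableOn (fun v : ℝ => Real.exp (-(v / T))) (Ioi a) := by
    have h := integrableOn_exp_mul_Ioi (a := -(1 / T)) (by
      rw [neg_lt_zero]
      positivity) a
    refine h.congr_fun (fun v _ => ?_) measurableSet_Ioi
    beta_reduce
    congr 1
    ring
  refine Integrable.mono' (h1.mul_const M) hc.aestronglyMeasurable (ae_of_all _ fun s => ?_)
  unfold Fe
  rw [norm_smul, Real.norm_of_nonneg (Real.exp_pos _).le]
  exact mul_le_mul_of_nonneg_left (hM _) (Real.exp_pos _).le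

theorem Ab_eq {B : ℝ → E} {M T : ℝ} (hB : Continuous B) (hM : ∀ t, ‖B t‖ ≤ M) (hT : 0 < T) (τ : ℝ) :
    Ab B T τ = (T⁻¹ * Real.exp (τ / T)) • ((∫ v in Ioi (0 : ℝ), Fe B T v) - ∫ v in (0 : ℝ)..τ, Fe B T v) := by
  have h1 : ∫ v in Ioi τ, Fe B T v = (∫ v in Ioi (0 : ℝ), Fe B T v) - ∫ v in (0 : ℝ)..τ, Fe B T v := by
    rw [← intervalIntegral.integral_interval_add_Ioi (Fe_int hB hM hT 0) (Fe_int hB hM hT τ)]
    abel
  rw [← h1]
  have h2 : ∫ v in Ioi τ, Fe B T v = ∫ v in Ioi (0 : ℝ), Fe B T (v + τ) := by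
    have h := (measurePreserving_add_right volume τ).setIntegral_preimage_emb
      (measurableEmbedding_addRight τ) (Fe B T) (Ioi τ)
    rw [← h]
    congr 2
    ext v
    simp
  rw [h2]
  have h3 : ∫ v in Ioi (0 : ℝ), Fe B T (v + τ) = T • ∫ s in Ioi (0 : ℝ), Fe B T (T * s + τ) := by
    rw [integral_comp_mul_left_Ioi (fun v => Fe B T (v + τ)) 0 hT, mul_zero, smul_smul,
      mul_inv_cancel₀ hT.ne', one_smul]
  rw [h3, smul_smul]
  unfold Ab
  have h4 : T⁻¹ * Real.exp (τ / T) * T = Real.exp (τ / T) := by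
    field_simp
  rw [h4, ← integral_smul]
  refine integral_congr_ae (ae_of_all _ fun s => ?_)
  beta_reduce
  unfold ga Fe
  rw [smul_smul, ← Real.exp_add]
  congr 2
  · field_simp
    ring
  · ring

theorem Ab_deriv [CompleteSpace E] {B : ℝ → E} {M T : ℝ} (hB : Continuous B) (hM : ∀ t, ‖B t‖ ≤ M)
    (hT : 0 < T) (τ : ℝ) : HasDerivAt (Ab B T) (T⁻¹ • (Ab B T τ - B τ)) τ := by
  have hc : Continuous (Fe B T) := by
    unfold Fe
    fun_prop
  have h1 : HasDerivAt (fun τ : ℝ => ∫ v in (0 : ℝ)..τ, Fe B T v) (Fe B T τ) τ :=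
    intervalIntegral.integral_hasDerivAt_right (hc.intervalIntegrable _ _)
      (hc.stronglyMeasurableAtFilter _ _) hc.continuousAt
  have h2 : HasDerivAt (fun τ : ℝ => T⁻¹ * Real.exp (τ / T)) (T⁻¹ * (Real.exp (τ / T) * (1 / T))) τ :=
    ((hasDerivAt_id τ).div_const T).exp.const_mul _
  have h3 := h2.smul (h1.const_sub (∫ v in Ioi (0 : ℝ), Fe B T v))
  have h4 : (fun τ : ℝ => (T⁻¹ * Real.exp (τ / T)) •
      ((∫ v in Ioi (0 : ℝ), Fe B T v) - ∫ v in (0 : ℝ)..τ, Fe B T v)) = Ab B T := by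
    funext τ
    exact (Ab_eq hB hM hT τ).symm
  have h5 : HasDerivAt (Ab B T) ((T⁻¹ * Real.exp (τ / T)) • -Fe B T τ +
      (T⁻¹ * (Real.exp (τ / T) * (1 / T))) •
        ((∫ v in Ioi (0 : ℝ), Fe B T v) - ∫ v in (0 : ℝ)..τ, Fe B T v)) τ := by
    rw [← h4]
    exact h3
  have h6 : (T⁻¹ * Real.exp (τ / T)) • -Fe B T τ +
      (T⁻¹ * (Real.exp (τ / T) * (1 / T))) •
        ((∫ v in Ioi (0 : ℝ), Fe B T v) - ∫ v in (0 : ℝ)..τ, Fe B T v) =
      T⁻¹ • (Ab B T τ - B τ) := by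
    rw [Ab_eq hB hM hT τ]
    have h7 : (T⁻¹ * Real.exp (τ / T)) • -Fe B T τ = -(T⁻¹ • B τ) := by
      unfold Fe
      rw [smul_neg, smul_smul]
      congr 2
      rw [mul_assoc, ← Real.exp_add]
      rw [add_neg_cancel, Real.exp_zero, mul_one]
    rw [h7]
    have h8 : T⁻¹ * (Real.exp (τ / T) * (1 / T)) = T⁻¹ * (T⁻¹ * Real.exp (τ / T)) := by ring
    rw [h8, smul_sub T⁻¹, smul_smul]
    abel
  rw [← h6]
  exact h5

theorem inner_ga {B : ℝ → E} {Sf : ℝ → ℂ} (hS : ∀ s t, ⟪B s, B t⟫_ℂ = Sf (t - s)) (T σ τ s : ℝ) :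
    ⟪B σ, ga B T τ s⟫_ℂ = (Real.exp (-s) : ℂ) * Sf (τ + s * T - σ) := by
  unfold ga
  rw [← Complex.coe_smul, inner_smul_right, hS]

theorem inner_B_Ab [CompleteSpace E] {B : ℝ → E} {Sf : ℝ → ℂ} {M T : ℝ} (hB : Continuous B)
    (hM : ∀ t, ‖B t‖ ≤ M) (hS : ∀ s t, ⟪B s, B t⟫_ℂ = Sf (t - s)) (σ τ : ℝ) :
    ⟪B σ, Ab B T τ⟫_ℂ = ∫ s in Ioi (0 : ℝ), (Real.exp (-s) : ℂ) * Sf (τ + s * T - σ) := by
  unfold Ab
  rw [← integral_inner (ga_int hB hM τ)]
  refine integral_congr_ae (ae_of_all _ fun s => ?_)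
  exact inner_ga hS T σ τ s

/-- the norm of the Abel average is constant -/
theorem Ab_const [CompleteSpace E] {B : ℝ → E} {Sf : ℝ → ℂ} {M T : ℝ} (hB : Continuous B)
    (hM : ∀ t, ‖B t‖ ≤ M) (hS : ∀ s t, ⟪B s, B t⟫_ℂ = Sf (t - s)) (τ : ℝ) :
    ⟪Ab B T τ, Ab B T τ⟫_ℂ = ⟪Ab B T 0, Ab B T 0⟫_ℂ := by
  have key : ∀ τ : ℝ, ⟪Ab B T τ, Ab B T τ⟫_ℂ = ∫ s in Ioi (0 : ℝ), (Real.exp (-s) : ℂ) *
      (starRingEnd ℂ) (∫ r in Ioi (0 : ℝ), (Real.exp (-r) : ℂ) * Sf (r * T - s * T)) := by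
    intro τ
    have h1 : ⟪Ab B T τ, Ab B T τ⟫_ℂ = ∫ s in Ioi (0 : ℝ), ⟪Ab B T τ, ga B T τ s⟫_ℂ := by
      rw [integral_inner (ga_int hB hM τ)]
      rfl
    rw [h1]
    refine integral_congr_ae (ae_of_all _ fun s => ?_)
    beta_reduce
    have h2 : ⟪Ab B T τ, ga B T τ s⟫_ℂ = (Real.exp (-s) : ℂ) * ⟪Ab B T τ, B (τ + s * T)⟫_ℂ := by
      unfold ga
      rw [← Complex.coe_smul, inner_smul_right]
    rw [h2, ← inner_conj_symm, inner_B_Ab hB hM hS]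
    have h3 : ∀ r : ℝ, τ + r * T - (τ + s * T) = r * T - s * T := fun r => by ring
    simp_rw [h3]
  rw [key, key]

theorem Ab_norm [CompleteSpace E] {B : ℝ → E} {Sf : ℝ → ℂ} {M T : ℝ} (hB : Continuous B)
    (hM : ∀ t, ‖B t‖ ≤ M) (hS : ∀ s t, ⟪B s, B t⟫_ℂ = Sf (t - s)) (τ : ℝ) :
    ‖Ab B T τ‖ = ‖Ab B T 0‖ := by
  have h := Ab_const (T := T) hB hM hS τ
  rw [inner_self_eq_norm_sq_to_K, inner_self_eq_norm_sq_to_K] at h
  have h2 : ‖Ab B T τ‖ ^ 2 = ‖Ab B T 0‖ ^ 2 := by exact_mod_cast h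
  exact (sq_eq_sq₀ (norm_nonneg _) (norm_nonneg _)).1 h2

theorem Ab_sq [CompleteSpace E] {B : ℝ → E} {Sf : ℝ → ℂ} {M T : ℝ} (hB : Continuous B)
    (hM : ∀ t, ‖B t‖ ≤ M) (hS : ∀ s t, ⟪B s, B t⟫_ℂ = Sf (t - s)) (hT : 0 < T) :
    ‖Ab B T 0‖ ^ 2 = ∫ s in Ioi (0 : ℝ), Real.exp (-s) * (Sf (s * T)).re := by
  have hd := Ab_deriv hB hM hT 0
  have h1 : HasDerivAt (fun τ => ⟪Ab B T τ, Ab B T τ⟫_ℂ)
      (⟪Ab B T 0, T⁻¹ • (Ab B T 0 - B 0)⟫_ℂ + ⟪T⁻¹ • (Ab B T 0 - B 0), Ab B T 0⟫_ℂ) 0 :=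
    hd.inner ℂ hd
  have h2 : HasDerivAt (fun τ => ⟪Ab B T τ, Ab B T τ⟫_ℂ) 0 0 := by
    have h3 : (fun τ => ⟪Ab B T τ, Ab B T τ⟫_ℂ) = fun _ => ⟪Ab B T 0, Ab B T 0⟫_ℂ := by
      funext τ
      exact Ab_const hB hM hS τ
    rw [h3]
    exact hasDerivAt_const _ _
  have h3 := h1.unique h2
  have h4 : (⟪Ab B T 0, T⁻¹ • (Ab B T 0 - B 0)⟫_ℂ).re = 0 := by
    have h5 := congrArg Complex.re h3
    rw [Complex.add_re, Complex.zero_re] at h5
    have h6 : (⟪T⁻¹ • (Ab B T 0 - B 0), Ab B T 0⟫_ℂ).re =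
        (⟪Ab B T 0, T⁻¹ • (Ab B T 0 - B 0)⟫_ℂ).re := by
      rw [← inner_conj_symm, Complex.conj_re]
    rw [h6] at h5
    linarith
  rw [← Complex.coe_smul, inner_smul_right, inner_sub_right, Complex.re_ofReal_mul,
    Complex.sub_re] at h4
  have h5 : (⟪Ab B T 0, Ab B T 0⟫_ℂ).re = (⟪Ab B T 0, B 0⟫_ℂ).re := by
    rcases mul_eq_zero.1 h4 with h | h
    · exact absurd h (inv_pos.2 hT).ne'
    · linarith
  have h6 : (⟪Ab B T 0, Ab B T 0⟫_ℂ).re = ‖Ab B T 0‖ ^ 2 := by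
    rw [inner_self_eq_norm_sq_to_K]
    norm_cast
  rw [← h6, h5, ← inner_conj_symm, Complex.conj_re, inner_B_Ab hB hM hS]
  have h7 : IntegrableOn (fun s : ℝ => (Real.exp (-s) : ℂ) * Sf (0 + s * T - 0)) (Ioi 0) := by
    have h8 : IntegrableOn (fun s : ℝ => ⟪B 0, ga B T 0 s⟫_ℂ) (Ioi 0) :=
      (ga_int hB hM 0).const_inner (𝕜 := ℂ) (B 0)
    refine h8.congr (ae_of_all _ fun s => ?_)
    exact inner_ga hS T 0 0 s
  have h8 := integral_re h7
  rw [show (∫ s in Ioi (0 : ℝ), (Real.exp (-s) : ℂ) * Sf (0 + s * T - 0)).re =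
    RCLike.re (∫ s in Ioi (0 : ℝ), (Real.exp (-s) : ℂ) * Sf (0 + s * T - 0)) from rfl, ← h8]
  refine integral_congr_ae (ae_of_all _ fun s => ?_)
  show ((Real.exp (-s) : ℂ) * Sf (0 + s * T - 0)).re = _
  rw [Complex.re_ofReal_mul, zero_add, sub_zero]

theorem abel_gen [CompleteSpace E] (B : ℝ → E) (Sf : ℝ → ℂ) (M T : ℝ) (hB : Continuous B)
    (hM : ∀ t, ‖B t‖ ≤ M) (hS : ∀ s t, ⟪B s, B t⟫_ℂ = Sf (t - s)) (hT : 0 < T) :
    IntegrableOn (fun s => Real.exp (-s) * (Sf (s * T)).re) (Ioi 0) ∧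
    ‖∫ u in (0 : ℝ)..1, B (u * T)‖ ^ 2 ≤
      9 * ∫ s in Ioi (0 : ℝ), Real.exp (-s) * (Sf (s * T)).re := by
  constructor
  · have h8 : IntegrableOn (fun s : ℝ => ⟪B 0, ga B T 0 s⟫_ℂ) (Ioi 0) :=
      (ga_int hB hM 0).const_inner (𝕜 := ℂ) (B 0)
    have h9 := h8.re
    refine h9.congr (ae_of_all _ fun s => ?_)
    show (⟪B 0, ga B T 0 s⟫_ℂ).re = _
    rw [inner_ga hS, Complex.re_ofReal_mul, zero_add, sub_zero]
  · rw [← Ab_sq hB hM hS hT]
    have hA : Continuous (Ab B T) := continuous_iff_continuousAt.2 fun τ =>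
      (Ab_deriv hB hM hT τ).continuousAt
    have h1 : ∀ u : ℝ, HasDerivAt (fun u => Ab B T (u * T)) (Ab B T (u * T) - B (u * T)) u := by
      intro u
      have h2 := HasDerivAt.scomp u (Ab_deriv hB hM hT (u * T)) ((hasDerivAt_id u).mul_const T)
      simp only [one_mul] at h2
      rw [smul_smul, mul_inv_cancel₀ hT.ne', one_smul] at h2
      exact h2
    have h2 : ∫ u in (0 : ℝ)..1, (Ab B T (u * T) - B (u * T)) = Ab B T (1 * T) - Ab B T (0 * T) := by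
      refine intervalIntegral.integral_eq_sub_of_hasDerivAt (fun u _ => h1 u) ?_
      refine Continuous.intervalIntegrable ?_ _ _
      exact (hA.comp (continuous_id.mul continuous_const)).sub
        (hB.comp (continuous_id.mul continuous_const))
    have hA' : Continuous fun u : ℝ => Ab B T (u * T) := hA.comp (continuous_id.mul continuous_const)
    have hB' : Continuous fun u : ℝ => B (u * T) := hB.comp (continuous_id.mul continuous_const)
    rw [intervalIntegral.integral_sub (hA'.intervalIntegrable _ _)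
      (hB'.intervalIntegrable _ _)] at h2
    have h3 : ∫ u in (0 : ℝ)..1, B (u * T) = (∫ u in (0 : ℝ)..1, Ab B T (u * T)) -
        (Ab B T (1 * T) - Ab B T (0 * T)) := by
      rw [← h2]
      abel
    have h4 : ‖∫ u in (0 : ℝ)..1, Ab B T (u * T)‖ ≤ ‖Ab B T 0‖ := by
      have h5 := intervalIntegral.norm_integral_le_of_norm_le_const (a := (0 : ℝ)) (b := 1)
        (f := fun u => Ab B T (u * T)) (C := ‖Ab B T 0‖) fun u _ => (Ab_norm hB hM hS _).le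
      simpa using h5
    have h5 : ‖∫ u in (0 : ℝ)..1, B (u * T)‖ ≤ 3 * ‖Ab B T 0‖ := by
      rw [h3]
      refine (norm_sub_le _ _).trans ?_
      have h6 := norm_sub_le (Ab B T (1 * T)) (Ab B T (0 * T))
      rw [Ab_norm hB hM hS (1 * T), Ab_norm hB hM hS (0 * T)] at h6
      linarith
    have h6 := pow_le_pow_left₀ (norm_nonneg _) h5 2
    refine h6.trans (le_of_eq ?_)
    ring

end Pool.Agent.Q222.WE
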