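import Pool.Agent.Q218.WE.Stm
import Pool.Agent.Q222.WE.ABELg

/-! # Project WE, job ABEL -/

set_option autoImplicit false

namespace Pool.Agent.Q222.WE

/-- JOB WE-ABEL. -/
theorem t_ABEL : Pool.Agent.Q218.WE.S_ABEL := by
  intro E _ _ _ B Sf M T hB hM hS hT
  exact abel_gen B Sf M T hB hM hS hT

end Pool.Agent.Q222.WE
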