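import Mathlib

/-! # Project WE, job AMPZ: the decay of the one-dimensional integrals -/

set_option autoImplicit false

open scoped BigOperators Topology
open MeasureTheory Set Filter

namespace Pool.Agent.Q222.WE

/-- the phase factor -/
noncomputable def ffg (s x : ℝ) : ℂ :=
  Complex.exp (Complex.I * ((-s * (2 * Real.cos (2 * Real.pi * x)) : ℝ) : ℂ))

/-- the character -/
noncomputable def chz (n : ℤ) (x : ℝ) : ℂ := Complex.exp (((2 * Real.pi * n * x : ℝ) : ℂ) * Complex.I)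

/-- the integrand -/
noncomputable def hh (n : ℤ) (s x : ℝ) : ℂ := chz n x * ffg s x

/-- the integral -/
noncomputable def pg (n : ℤ) (s : ℝ) : ℂ := ∫ x in (0 : ℝ)..1, hh n s x

theorem ffg_norm (s x : ℝ) : ‖ffg s x‖ = 1 := by
  unfold ffg
  rw [mul_comm, Complex.norm_exp_ofReal_mul_I]

theorem chz_norm (n : ℤ) (x : ℝ) : ‖chz n x‖ = 1 := by
  unfold chz
  rw [Complex.norm_exp_ofReal_mul_I]

theorem hh_norm (n : ℤ) (s x : ℝ) : ‖hh n s x‖ = 1 := by
  unfold hh
  rw [norm_mul, ffg_norm, chz_norm, mul_one]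

theorem hh_cont (n : ℤ) (s : ℝ) : Continuous (hh n s) := by
  unfold hh chz ffg
  fun_prop

theorem chz_succ (n : ℤ) (x : ℝ) : chz (n + 1) x = chz n x * Complex.exp (((2 * Real.pi * x : ℝ) : ℂ) * Complex.I) := by
  unfold chz
  rw [← Complex.exp_add]
  congr 1
  push_cast
  ring

theorem chz_pred (n : ℤ) (x : ℝ) :
    chz (n - 1) x = chz n x * Complex.exp (-((2 * Real.pi * x : ℝ) : ℂ) * Complex.I) := by
  unfold chz
  rw [← Complex.exp_add]
  congr 1
  push_cast
  ring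

theorem two_cos (x : ℝ) : ((2 * Real.cos (2 * Real.pi * x) : ℝ) : ℂ) =
    Complex.exp (((2 * Real.pi * x : ℝ) : ℂ) * Complex.I) +
      Complex.exp (-((2 * Real.pi * x : ℝ) : ℂ) * Complex.I) := by
  push_cast
  rw [Complex.two_cos]

theorem two_sin (x : ℝ) : ((2 * Real.sin (2 * Real.pi * x) : ℝ) : ℂ) * Complex.I =
    Complex.exp (((2 * Real.pi * x : ℝ) : ℂ) * Complex.I) -
      Complex.exp (-((2 * Real.pi * x : ℝ) : ℂ) * Complex.I) := by
  push_cast
  rw [Complex.two_sin]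
  linear_combination (Complex.exp (-(2 * (Real.pi : ℂ) * x) * Complex.I) -
    Complex.exp (2 * (Real.pi : ℂ) * x * Complex.I)) * Complex.I_mul_I

theorem hh_ds (n : ℤ) (s x : ℝ) :
    HasDerivAt (fun s => hh n s x) (-Complex.I * (hh (n + 1) s x + hh (n - 1) s x)) s := by
  have h1 : HasDerivAt (fun s : ℝ => -s * (2 * Real.cos (2 * Real.pi * x)))
      (-(2 * Real.cos (2 * Real.pi * x))) s := by
    have := (hasDerivAt_id s).neg.mul_const (2 * Real.cos (2 * Real.pi * x))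
    simpa using this
  have h2 := ((h1.ofReal_comp.const_mul Complex.I).cexp).const_mul (chz n x)
  have h3 : chz n x * (Complex.exp (Complex.I * ((-s * (2 * Real.cos (2 * Real.pi * x)) : ℝ) : ℂ)) *
      (Complex.I * ((-(2 * Real.cos (2 * Real.pi * x)) : ℝ) : ℂ))) =
      -Complex.I * (hh (n + 1) s x + hh (n - 1) s x) := by
    unfold hh
    rw [chz_succ, chz_pred, Complex.ofReal_neg, two_cos]
    unfold ffg
    ring
  rw [← h3]
  exact h2

theorem hh_dx (n : ℤ) (s x : ℝ) :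
    HasDerivAt (hh n s) (((2 * Real.pi : ℝ) : ℂ) * (Complex.I * n * hh n s x +
      s * (hh (n + 1) s x - hh (n - 1) s x))) x := by
  have h1 : HasDerivAt (fun x : ℝ => 2 * Real.pi * n * x) (2 * Real.pi * n) x := by
    simpa using (hasDerivAt_id x).const_mul (2 * Real.pi * (n : ℝ))
  have h2 : HasDerivAt (chz n) (Complex.exp (((2 * Real.pi * n * x : ℝ) : ℂ) * Complex.I) *
      (((2 * Real.pi * n : ℝ) : ℂ) * Complex.I)) x := (h1.ofReal_comp.mul_const Complex.I).cexp
  have h3 : HasDerivAt (fun x : ℝ => 2 * Real.pi * x) (2 * Real.pi) x := by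
    simpa using (hasDerivAt_id x).const_mul (2 * Real.pi)
  have h4 : HasDerivAt (fun x : ℝ => -s * (2 * Real.cos (2 * Real.pi * x)))
      (-s * (2 * (-Real.sin (2 * Real.pi * x) * (2 * Real.pi)))) x :=
    (h3.cos.const_mul 2).const_mul (-s)
  have h5 := (h4.ofReal_comp.const_mul Complex.I).cexp
  have h6 := h2.mul h5
  have h7 : Complex.exp (((2 * Real.pi * n * x : ℝ) : ℂ) * Complex.I) *
      (((2 * Real.pi * n : ℝ) : ℂ) * Complex.I) *
      Complex.exp (Complex.I * ((-s * (2 * Real.cos (2 * Real.pi * x)) : ℝ) : ℂ)) +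
      chz n x * (Complex.exp (Complex.I * ((-s * (2 * Real.cos (2 * Real.pi * x)) : ℝ) : ℂ)) *
        (Complex.I * ((-s * (2 * (-Real.sin (2 * Real.pi * x) * (2 * Real.pi))) : ℝ) : ℂ))) =
      ((2 * Real.pi : ℝ) : ℂ) * (Complex.I * n * hh n s x +
      s * (hh (n + 1) s x - hh (n - 1) s x)) := by
    have e1 : (Complex.I * ((-s * (2 * (-Real.sin (2 * Real.pi * x) * (2 * Real.pi))) : ℝ) : ℂ)) =
        ((2 * Real.pi : ℝ) : ℂ) * s * (((2 * Real.sin (2 * Real.pi * x) : ℝ) : ℂ) * Complex.I) := by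
      push_cast
      ring
    rw [e1, two_sin]
    unfold hh
    rw [chz_succ, chz_pred]
    have e2 : Complex.exp (((2 * Real.pi * n * x : ℝ) : ℂ) * Complex.I) = chz n x := rfl
    have e3 : Complex.exp (Complex.I * ((-s * (2 * Real.cos (2 * Real.pi * x)) : ℝ) : ℂ)) = ffg s x := rfl
    rw [e2, e3]
    push_cast
    ring
  rw [← h7]
  exact h6

theorem pg_le (n : ℤ) (s : ℝ) : ‖pg n s‖ ≤ 1 := by
  have := intervalIntegral.norm_integral_le_of_norm_le_const (a := (0 : ℝ)) (b := 1) (f := hh n s)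
    (C := 1) fun x _ => (hh_norm n s x).le
  simpa [pg] using this

theorem pg_deriv (n : ℤ) (s : ℝ) :
    HasDerivAt (pg n) (-Complex.I * (pg (n + 1) s + pg (n - 1) s)) s := by
  have h1 := intervalIntegral.hasDerivAt_integral_of_dominated_loc_of_deriv_le (μ := volume)
    (F := fun s x => hh n s x) (F' := fun s x => -Complex.I * (hh (n + 1) s x + hh (n - 1) s x))
    (x₀ := s) (s := Set.univ) (a := 0) (b := 1) (bound := fun _ => 2) Filter.univ_mem
    (Filter.Eventually.of_forall fun s => (hh_cont n s).aestronglyMeasurable)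
    ((hh_cont n s).intervalIntegrable _ _)
    ((continuous_const.mul ((hh_cont (n + 1) s).add (hh_cont (n - 1) s))).aestronglyMeasurable)
    (ae_of_all _ fun x _ s _ => by
      rw [norm_mul, norm_neg, Complex.norm_I, one_mul]
      refine (norm_add_le _ _).trans ?_
      rw [hh_norm, hh_norm]
      norm_num)
    (by simp)
    (ae_of_all _ fun x _ s _ => hh_ds n s x)
  have h2 : ∫ x in (0 : ℝ)..1, -Complex.I * (hh (n + 1) s x + hh (n - 1) s x) =
      -Complex.I * (pg (n + 1) s + pg (n - 1) s) := by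
    rw [intervalIntegral.integral_const_mul, intervalIntegral.integral_add
      ((hh_cont (n + 1) s).intervalIntegrable _ _) ((hh_cont (n - 1) s).intervalIntegrable _ _)]
    rfl
  rw [← h2]
  exact h1.2

theorem pg_cont (n : ℤ) : Continuous (pg n) :=
  continuous_iff_continuousAt.2 fun s => (pg_deriv n s).continuousAt

/-- the recurrence -/
theorem pg_rec (n : ℤ) (s : ℝ) : Complex.I * n * pg n s + s * (pg (n + 1) s - pg (n - 1) s) = 0 := by
  have h1 : ∫ x in (0 : ℝ)..1, ((2 * Real.pi : ℝ) : ℂ) * (Complex.I * n * hh n s x +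
      s * (hh (n + 1) s x - hh (n - 1) s x)) = hh n s 1 - hh n s 0 := by
    refine intervalIntegral.integral_eq_sub_of_hasDerivAt (fun x _ => hh_dx n s x) ?_
    refine Continuous.intervalIntegrable ?_ _ _
    exact continuous_const.mul ((continuous_const.mul (hh_cont n s)).add
      (continuous_const.mul ((hh_cont (n + 1) s).sub (hh_cont (n - 1) s))))
  have h2 : hh n s 1 = hh n s 0 := by
    unfold hh chz ffg
    have e1 : Complex.exp (((2 * Real.pi * n * 1 : ℝ) : ℂ) * Complex.I) = 1 := by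
      have := Complex.exp_int_mul_two_pi_mul_I n
      rw [← this]
      congr 1
      push_cast
      ring
    have e2 : Complex.exp (((2 * Real.pi * n * 0 : ℝ) : ℂ) * Complex.I) = 1 := by
      simp
    rw [e1, e2]
    congr 6
    rw [mul_one, mul_zero, Real.cos_two_pi, Real.cos_zero]
  rw [h2, sub_self, intervalIntegral.integral_const_mul] at h1
  have h3 : ((2 * Real.pi : ℝ) : ℂ) ≠ 0 := by
    exact_mod_cast (by positivity : (2 * Real.pi : ℝ) ≠ 0)
  have h4 := (mul_eq_zero.1 h1).resolve_left h3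
  have i1 : IntervalIntegrable (fun x => Complex.I * n * hh n s x) volume 0 1 :=
    (continuous_const.mul (hh_cont n s)).intervalIntegrable _ _
  have i2 : IntervalIntegrable (fun x => (s : ℂ) * (hh (n + 1) s x - hh (n - 1) s x)) volume 0 1 :=
    (continuous_const.mul ((hh_cont (n + 1) s).sub (hh_cont (n - 1) s))).intervalIntegrable _ _
  rw [intervalIntegral.integral_add i1 i2, intervalIntegral.integral_const_mul,
    intervalIntegral.integral_const_mul, intervalIntegral.integral_sub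
      ((hh_cont (n + 1) s).intervalIntegrable _ _) ((hh_cont (n - 1) s).intervalIntegrable _ _)] at h4
  exact h4

/-- the symmetry -/
theorem pg_neg (n : ℤ) (s : ℝ) : pg (-n) s = pg n s := by
  unfold pg
  have h1 := intervalIntegral.integral_comp_sub_left (a := (0 : ℝ)) (b := 1) (fun x => hh n s x) 1
  rw [sub_self, sub_zero] at h1
  rw [← h1]
  refine intervalIntegral.integral_congr fun x _ => ?_
  show hh (-n) s x = hh n s (1 - x)
  unfold hh chz ffg
  congr 1
  · have e1 : (((2 * Real.pi * n * (1 - x) : ℝ) : ℂ) * Complex.I) =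
        (((2 * Real.pi * ((-n : ℤ) : ℝ) * x : ℝ) : ℂ) * Complex.I) + n * (2 * Real.pi * Complex.I) := by
      push_cast
      ring
    rw [e1, Complex.exp_add, Complex.exp_int_mul_two_pi_mul_I, mul_one]
  · congr 5
    rw [mul_sub, mul_one, Real.cos_two_pi_sub]

/-! ### decay -/

/-- the sum of the squares -/
noncomputable def sqs (s : ℝ) : ℝ := ‖pg 0 s‖ ^ 2 + ‖pg 1 s‖ ^ 2

/-- the mixed product -/
noncomputable def mix (s : ℝ) : ℝ := ((starRingEnd ℂ) (pg 0 s) * pg 1 s).im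

theorem d_pg0 (s : ℝ) : HasDerivAt (pg 0) (-Complex.I * (2 * pg 1 s)) s := by
  have h := pg_deriv 0 s
  rw [zero_add, zero_sub, pg_neg] at h
  rw [show 2 * pg 1 s = pg 1 s + pg 1 s by ring]
  exact h

theorem d_pg1 {s : ℝ} (hs : s ≠ 0) :
    HasDerivAt (pg 1) (-Complex.I * (2 * pg 0 s) - pg 1 s / s) s := by
  have h := pg_deriv 1 s
  have h2 := pg_rec 1 s
  norm_num at h h2
  have hsc : (s : ℂ) ≠ 0 := by exact_mod_cast hs
  have h3 : pg 2 s = pg 0 s - Complex.I * pg 1 s / s := by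
    field_simp
    linear_combination h2
  rw [h3] at h
  have h4 : -Complex.I * (2 * pg 0 s) - pg 1 s / s =
      -(Complex.I * (pg 0 s - Complex.I * pg 1 s / s + pg 0 s)) := by
    field_simp
    linear_combination -(pg 1 s) * Complex.I_mul_I
  rw [h4]
  exact h

theorem d_norm_sq {f : ℝ → ℂ} {f' : ℂ} {s : ℝ} (h : HasDerivAt f f' s) :
    HasDerivAt (fun s => ‖f s‖ ^ 2) (2 * ((starRingEnd ℂ) (f s) * f').re) s := by
  have hr : HasDerivAt (fun s => (f s).re) f'.re s := Complex.reCLM.hasFDerivAt.comp_hasDerivAt s h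
  have hi : HasDerivAt (fun s => (f s).im) f'.im s := Complex.imCLM.hasFDerivAt.comp_hasDerivAt s h
  have h1 := (hr.mul hr).add (hi.mul hi)
  have h2 : (fun s => ‖f s‖ ^ 2) = fun s => (f s).re * (f s).re + (f s).im * (f s).im := by
    funext s
    rw [← Complex.normSq_eq_norm_sq, Complex.normSq_apply]
  rw [h2]
  refine h1.congr_deriv ?_
  simp
  ring

theorem d_sqs {s : ℝ} (hs : s ≠ 0) : HasDerivAt sqs (-(2 * ‖pg 1 s‖ ^ 2 / s)) s := by
  have h1 := d_norm_sq (d_pg0 s)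
  have h2 := d_norm_sq (d_pg1 hs)
  refine (h1.add h2).congr_deriv ?_
  rw [← Complex.normSq_eq_norm_sq, Complex.normSq_apply]
  have e : pg 1 s / s = ((s⁻¹ : ℝ) : ℂ) * pg 1 s := by
    push_cast
    field_simp
  rw [e]
  simp
  ring

theorem d_mix {s : ℝ} (hs : s ≠ 0) :
    HasDerivAt mix (2 * ‖pg 1 s‖ ^ 2 - 2 * ‖pg 0 s‖ ^ 2 - mix s / s) s := by
  have h0 := d_pg0 s
  have h1 := d_pg1 hs
  have hr0 : HasDerivAt (fun s => (pg 0 s).re) (-Complex.I * (2 * pg 1 s)).re s :=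
    Complex.reCLM.hasFDerivAt.comp_hasDerivAt s h0
  have hi0 : HasDerivAt (fun s => (pg 0 s).im) (-Complex.I * (2 * pg 1 s)).im s :=
    Complex.imCLM.hasFDerivAt.comp_hasDerivAt s h0
  have hr1 : HasDerivAt (fun s => (pg 1 s).re) (-Complex.I * (2 * pg 0 s) - pg 1 s / s).re s :=
    Complex.reCLM.hasFDerivAt.comp_hasDerivAt s h1
  have hi1 : HasDerivAt (fun s => (pg 1 s).im) (-Complex.I * (2 * pg 0 s) - pg 1 s / s).im s :=
    Complex.imCLM.hasFDerivAt.comp_hasDerivAt s h1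
  have h2 := (hr0.mul hi1).sub (hi0.mul hr1)
  have h3 : mix = fun s => (pg 0 s).re * (pg 1 s).im - (pg 0 s).im * (pg 1 s).re := by
    funext s
    unfold mix
    simp
    ring
  rw [h3]
  refine h2.congr_deriv ?_
  rw [← Complex.normSq_eq_norm_sq, Complex.normSq_apply, ← Complex.normSq_eq_norm_sq,
    Complex.normSq_apply]
  have e : pg 1 s / s = ((s⁻¹ : ℝ) : ℂ) * pg 1 s := by
    push_cast
    field_simp
  rw [e]
  simp
  ring

theorem mix_le (s : ℝ) : |mix s| ≤ 1 / 2 * sqs s := by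
  unfold mix sqs
  have h1 := Complex.abs_im_le_norm ((starRingEnd ℂ) (pg 0 s) * pg 1 s)
  rw [norm_mul, Complex.norm_conj] at h1
  nlinarith [sq_nonneg (‖pg 0 s‖ - ‖pg 1 s‖)]

/-- the modified energy -/
noncomputable def Hs (s : ℝ) : ℝ := s * sqs s + 1 / 2 * mix s

theorem sqs_nonneg (s : ℝ) : 0 ≤ sqs s := by
  unfold sqs
  positivity

theorem d_Hs {s : ℝ} (hs : s ≠ 0) : HasDerivAt Hs (-(mix s / (2 * s))) s := by
  have h1 := ((hasDerivAt_id s).mul (d_sqs hs)).add ((d_mix hs).const_mul (1 / 2))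
  refine h1.congr_deriv ?_
  simp only [id]
  unfold sqs
  field_simp
  ring

theorem Hs_ge {s : ℝ} (hs : 1 ≤ s) : 3 / 4 * (s * sqs s) ≤ Hs s := by
  have h1 := (abs_le.1 (mix_le s)).1
  have h2 := sqs_nonneg s
  unfold Hs
  nlinarith

theorem Hs_bound {s : ℝ} (hs : 1 ≤ s) : Hs s * Real.exp (1 / (3 * s)) ≤ Hs 1 * Real.exp (1 / 3) := by
  have hanti : AntitoneOn (fun s => Hs s * Real.exp (1 / (3 * s))) (Ici 1) := by
    have hd : ∀ x : ℝ, 1 ≤ x → HasDerivAt (fun s => Hs s * Real.exp (1 / (3 * s)))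
        (-(mix x / (2 * x)) * Real.exp (1 / (3 * x)) +
          Hs x * (Real.exp (1 / (3 * x)) * (-(1 / (3 * x ^ 2))))) x := by
      intro x hx
      have hx0 : x ≠ 0 := by linarith
      have h1 : HasDerivAt (fun s : ℝ => 1 / (3 * s)) (-(1 / (3 * x ^ 2))) x := by
        have h2 : HasDerivAt (fun s : ℝ => 3 * s) 3 x := by
          simpa using (hasDerivAt_id x).const_mul (3 : ℝ)
        have h3 := h2.inv (by positivity : 3 * x ≠ 0)
        simp only [one_div]
        refine h3.congr_deriv ?_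
        field_simp
      exact (d_Hs hx0).mul h1.exp
    refine antitoneOn_of_deriv_nonpos (convex_Ici 1)
      (fun x hx => (hd x hx).continuousAt.continuousWithinAt) (fun x hx => ?_) (fun x hx => ?_)
    · rw [interior_Ici] at hx
      exact (hd x (le_of_lt hx)).differentiableAt.differentiableWithinAt
    · rw [interior_Ici] at hx
      have hx1 : 1 ≤ x := le_of_lt hx
      have hx0 : 0 < x := by linarith
      rw [(hd x hx1).deriv]
      have h1 := Hs_ge hx1
      have h2 := (abs_le.1 (mix_le x)).1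
      have h3 := sqs_nonneg x
      have h4 : -(mix x / (2 * x)) ≤ Hs x * (1 / (3 * x ^ 2)) := by
        have h5 : -(mix x / (2 * x)) ≤ sqs x / (4 * x) := by
          rw [neg_le_iff_add_nonneg, div_add_div _ _ (by positivity) (by positivity)]
          apply div_nonneg _ (by positivity)
          nlinarith
        refine h5.trans ?_
        have h6 : sqs x / (4 * x) = 3 / 4 * (x * sqs x) * (1 / (3 * x ^ 2)) := by
          field_simp
        rw [h6]
        exact mul_le_mul_of_nonneg_right h1 (by positivity)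
      have h5 : -(mix x / (2 * x)) * Real.exp (1 / (3 * x)) +
          Hs x * (Real.exp (1 / (3 * x)) * (-(1 / (3 * x ^ 2)))) =
          (-(mix x / (2 * x)) - Hs x * (1 / (3 * x ^ 2))) * Real.exp (1 / (3 * x)) := by ring
      rw [h5]
      exact mul_nonpos_of_nonpos_of_nonneg (by linarith) (Real.exp_pos _).le
  have h := hanti (mem_Ici.2 le_rfl) (mem_Ici.2 hs) hs
  simpa using h

theorem sqs_decay : ∃ K : ℝ, 0 ≤ K ∧ ∀ s : ℝ, 1 ≤ s → s * sqs s ≤ K := by
  refine ⟨4 / 3 * (Hs 1 * Real.exp (1 / 3)), ?_, fun s hs => ?_⟩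
  · have h1 := Hs_ge (le_refl (1 : ℝ))
    have h2 := sqs_nonneg 1
    have h3 : 0 ≤ Hs 1 := by linarith
    positivity
  · have h1 := Hs_bound hs
    have h2 := Hs_ge hs
    have h3 : (1 : ℝ) ≤ Real.exp (1 / (3 * s)) := Real.one_le_exp (by positivity)
    have h4 := sqs_nonneg s
    have h5 : 0 ≤ Hs s := by
      have : 0 ≤ s * sqs s := mul_nonneg (by linarith) h4
      linarith
    have h6 : Hs s ≤ Hs s * Real.exp (1 / (3 * s)) := le_mul_of_one_le_right h5 h3
    linarith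

/-- the decay for large times -/
theorem pg_large (n : ℤ) : ∃ C : ℝ, 0 ≤ C ∧ ∀ s : ℝ, 1 ≤ s → ‖pg n s‖ ≤ C * s ^ (-(1 / 2) : ℝ) := by
  obtain ⟨K, hK0, hK⟩ := sqs_decay
  have base : ∀ z : ℂ, ∀ s : ℝ, 1 ≤ s → ‖z‖ ^ 2 ≤ sqs s → ‖z‖ ≤ Real.sqrt K * s ^ (-(1 / 2) : ℝ) := by
    intro z s hs hz
    have hs0 : 0 < s := by linarith
    have h1 : s * ‖z‖ ^ 2 ≤ K := (mul_le_mul_of_nonneg_left hz hs0.le).trans (hK s hs)
    have h2 : ‖z‖ ^ 2 ≤ K * s⁻¹ := by
      rw [← div_eq_mul_inv, le_div_iff₀ hs0]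
      linarith
    have h3 : ‖z‖ ≤ Real.sqrt (K * s⁻¹) := Real.le_sqrt_of_sq_le h2
    rw [Real.sqrt_mul hK0, Real.sqrt_inv, Real.sqrt_eq_rpow s, ← Real.rpow_neg hs0.le] at h3
    exact h3
  have key : ∀ n : ℤ, ∃ C : ℝ, 0 ≤ C ∧ ∀ s : ℝ, 1 ≤ s → ‖pg n s‖ ≤ C * s ^ (-(1 / 2) : ℝ) ∧
      ‖pg (n + 1) s‖ ≤ C * s ^ (-(1 / 2) : ℝ) := by
    intro n
    induction n using Int.induction_on with
    | zero =>
      refine ⟨Real.sqrt K, Real.sqrt_nonneg _, fun s hs => ⟨base _ s hs ?_, base _ s hs ?_⟩⟩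
      · unfold sqs
        linarith [sq_nonneg ‖pg 1 s‖]
      · unfold sqs
        rw [zero_add]
        linarith [sq_nonneg ‖pg 0 s‖]
    | succ n ih =>
      obtain ⟨C, hC0, hC⟩ := ih
      refine ⟨(n + 2) * C, by positivity, fun s hs => ?_⟩
      obtain ⟨h1, h2⟩ := hC s hs
      have hs0 : 0 < s := by linarith
      have hp : 0 ≤ s ^ (-(1 / 2) : ℝ) := by positivity
      have hsc : (s : ℂ) ≠ 0 := by exact_mod_cast hs0.ne'
      have hr := pg_rec ((n : ℤ) + 1) s
      have e1 : (n : ℤ) + 1 - 1 = n := by ring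
      rw [e1] at hr
      have h3 : pg ((n : ℤ) + 1 + 1) s = pg n s - Complex.I * (((n : ℤ) + 1 : ℤ) : ℂ) * pg ((n : ℤ) + 1) s / s := by
        field_simp
        linear_combination hr
      have h4 : ‖pg ((n : ℤ) + 1 + 1) s‖ ≤ (n + 2) * C * s ^ (-(1 / 2) : ℝ) := by
        rw [h3]
        refine (norm_sub_le _ _).trans ?_
        rw [norm_div, norm_mul, norm_mul, Complex.norm_I, one_mul, Complex.norm_real,
          Real.norm_of_nonneg hs0.le]
        have h5 : ‖((((n : ℤ) + 1 : ℤ) : ℂ))‖ = (n : ℝ) + 1 := by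
          rw [Complex.norm_intCast]
          push_cast
          rw [abs_of_nonneg (by positivity)]
        rw [h5]
        have h6 : ((n : ℝ) + 1) * ‖pg ((n : ℤ) + 1) s‖ / s ≤ ((n : ℝ) + 1) * ‖pg ((n : ℤ) + 1) s‖ :=
          div_le_self (by positivity) hs
        have h7 : ((n : ℝ) + 1) * ‖pg ((n : ℤ) + 1) s‖ ≤ ((n : ℝ) + 1) * (C * s ^ (-(1 / 2) : ℝ)) :=
          mul_le_mul_of_nonneg_left h2 (by positivity)
        nlinarith
      refine ⟨h2.trans ?_, h4⟩
      have : (0 : ℝ) ≤ (n + 1) * C * s ^ (-(1 / 2) : ℝ) := by positivity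
      nlinarith
    | pred n ih =>
      obtain ⟨C, hC0, hC⟩ := ih
      refine ⟨(n + 1) * C, by positivity, fun s hs => ?_⟩
      obtain ⟨h1, h2⟩ := hC s hs
      have hs0 : 0 < s := by linarith
      have hp : 0 ≤ s ^ (-(1 / 2) : ℝ) := by positivity
      have hsc : (s : ℂ) ≠ 0 := by exact_mod_cast hs0.ne'
      have hr := pg_rec (-(n : ℤ)) s
      have h3 : pg (-(n : ℤ) - 1) s = pg (-(n : ℤ) + 1) s + Complex.I * ((-(n : ℤ) : ℤ) : ℂ) * pg (-(n : ℤ)) s / s := by
        field_simp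
        linear_combination -hr
      have h4 : ‖pg (-(n : ℤ) - 1) s‖ ≤ (n + 1) * C * s ^ (-(1 / 2) : ℝ) := by
        rw [h3]
        refine (norm_add_le _ _).trans ?_
        rw [norm_div, norm_mul, norm_mul, Complex.norm_I, one_mul, Complex.norm_real,
          Real.norm_of_nonneg hs0.le]
        have h5 : ‖((-(n : ℤ) : ℤ) : ℂ)‖ = (n : ℝ) := by
          rw [Complex.norm_intCast]
          push_cast
          rw [abs_neg, abs_of_nonneg (by positivity)]
        rw [h5]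
        have h6 : (n : ℝ) * ‖pg (-(n : ℤ)) s‖ / s ≤ (n : ℝ) * ‖pg (-(n : ℤ)) s‖ :=
          div_le_self (by positivity) hs
        have h7 : (n : ℝ) * ‖pg (-(n : ℤ)) s‖ ≤ (n : ℝ) * (C * s ^ (-(1 / 2) : ℝ)) :=
          mul_le_mul_of_nonneg_left h1 (by positivity)
        nlinarith
      refine ⟨h4, ?_⟩
      rw [sub_add_cancel]
      refine h1.trans ?_
      have : (0 : ℝ) ≤ n * C * s ^ (-(1 / 2) : ℝ) := by positivity
      nlinarith
  obtain ⟨C, hC0, hC⟩ := key n
  exact ⟨C, hC0, fun s hs => (hC s hs).1⟩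

/-- **the decay** -/
theorem pg_decay (n : ℤ) : ∃ C : ℝ, 1 ≤ C ∧ ∀ s : ℝ, 0 ≤ s → ‖pg n s‖ ≤ C * (s + 1) ^ (-(1 / 2) : ℝ) := by
  obtain ⟨C, hC0, hC⟩ := pg_large n
  refine ⟨2 * C + 2, by linarith, fun s hs => ?_⟩
  rcases le_or_gt s 1 with h | h
  · have h1 : (1 / 2 : ℝ) ≤ (s + 1) ^ (-(1 / 2) : ℝ) := by
      have h2 : (2 : ℝ) ^ (-(1 / 2) : ℝ) ≤ (s + 1) ^ (-(1 / 2) : ℝ) :=
        Real.rpow_le_rpow_of_nonpos (by linarith) (by linarith) (by norm_num)
      have h3 : (1 / 2 : ℝ) ≤ (2 : ℝ) ^ (-(1 / 2) : ℝ) := by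
        have h4 : (2 : ℝ) ^ (-1 : ℝ) ≤ (2 : ℝ) ^ (-(1 / 2) : ℝ) :=
          Real.rpow_le_rpow_of_exponent_le (by norm_num) (by norm_num)
        rw [Real.rpow_neg_one] at h4
        linarith
      linarith
    have h2 := pg_le n s
    nlinarith
  · have h1 := hC s h.le
    have h2 : s ^ (-(1 / 2) : ℝ) ≤ 2 * (s + 1) ^ (-(1 / 2) : ℝ) := by
      have h3 : (4 * s) ^ (-(1 / 2) : ℝ) ≤ (s + 1) ^ (-(1 / 2) : ℝ) :=
        Real.rpow_le_rpow_of_nonpos (by linarith) (by linarith) (by norm_num)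
      rw [Real.mul_rpow (by norm_num) (by linarith)] at h3
      have h4 : (4 : ℝ) ^ (-(1 / 2) : ℝ) = 1 / 2 := by
        rw [show (4 : ℝ) = 2 ^ (2 : ℝ) by norm_num, ← Real.rpow_mul (by norm_num)]
        norm_num
      rw [h4] at h3
      linarith
    have h5 : 0 ≤ (s + 1) ^ (-(1 / 2) : ℝ) := by positivity
    nlinarith

end Pool.Agent.Q222.WE
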