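import Pool.Agent.Q218.WE.Stm
import Pool.Agent.Q222.WE.BES

/-! # Project WE, job AMPZ: the free amplitudes -/

set_option autoImplicit false

open scoped BigOperators Topology
open MeasureTheory Set Filter

namespace Pool.Agent.Q222.WE

open Pool.Agent.TH794.QD (ff mv Amp riemann mv_prod exp_adj mv_add mv_mul exp_I_lip ff_lip ff_norm
  ff_cont avg_le_one)
open Pool.Agent.W788.MFP.Four (T NN adj e)
open Pool.Agent.Q218.WE (pn FZ)

theorem ff_eq (s x : ℝ) : ff s x = ffg s x := rfl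

theorem pn_eq (n : ℤ) (s : ℝ) : pn n s = pg n s := rfl

theorem chz_lip (n : ℤ) (x y : ℝ) : ‖chz n x - chz n y‖ ≤ 7 * |(n : ℝ)| * |x - y| := by
  unfold chz
  rw [mul_comm _ Complex.I, mul_comm _ Complex.I]
  refine (exp_I_lip _ _).trans ?_
  rw [← mul_sub, abs_mul, abs_mul, abs_of_pos (by positivity : (0 : ℝ) < 2 * Real.pi)]
  have h2 : 2 * Real.pi ≤ 7 := by
    have := Real.pi_lt_d2
    linarith
  gcongr

theorem hh_lip (n : ℤ) (s x y : ℝ) :
    ‖hh n s x - hh n s y‖ ≤ (7 * |(n : ℝ)| + 14 * |s|) * |x - y| := by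
  unfold hh
  have e1 : chz n x * ffg s x - chz n y * ffg s y =
      chz n x * (ffg s x - ffg s y) + (chz n x - chz n y) * ffg s y := by ring
  rw [e1]
  refine (norm_add_le _ _).trans ?_
  rw [norm_mul, norm_mul, chz_norm, ffg_norm, one_mul, mul_one]
  have h1 : ‖ffg s x - ffg s y‖ ≤ 14 * |s| * |x - y| := ff_lip s x y
  have h2 := chz_lip n x y
  linarith

/-- the discrete amplitude -/
noncomputable def cz (L : ℕ) [NeZero L] (n : ℤ) (s : ℝ) : ℂ :=
  ((L : ℝ) : ℂ)⁻¹ * ∑ k : ZMod L, hh n s ((k.val : ℝ) / L)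

theorem cz_pg (L : ℕ) [NeZero L] (n : ℤ) (s : ℝ) :
    ‖cz L n s - pg n s‖ ≤ (7 * |(n : ℝ)| + 14 * |s|) / L :=
  riemann L (hh n s) _ (hh_cont n s) (hh_lip n s)

theorem cz_le (L : ℕ) [NeZero L] (n : ℤ) (s : ℝ) : ‖cz L n s‖ ≤ 1 :=
  avg_le_one L _ fun _ => (hh_norm _ _ _).le

theorem prod_lip {ι : Type} (S : Finset ι) (a b : ι → ℂ) (ha : ∀ i, ‖a i‖ ≤ 1) (hb : ∀ i, ‖b i‖ ≤ 1) :
    ‖∏ i ∈ S, a i - ∏ i ∈ S, b i‖ ≤ ∑ i ∈ S, ‖a i - b i‖ := by
  classical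
  induction S using Finset.induction_on with
  | empty => simp
  | insert i S hi ih =>
    rw [Finset.prod_insert hi, Finset.prod_insert hi, Finset.sum_insert hi]
    have e1 : a i * ∏ j ∈ S, a j - b i * ∏ j ∈ S, b j =
        (a i - b i) * ∏ j ∈ S, a j + b i * (∏ j ∈ S, a j - ∏ j ∈ S, b j) := by ring
    rw [e1]
    refine (norm_add_le _ _).trans ?_
    rw [norm_mul, norm_mul, norm_prod]
    have h1 : ∏ j ∈ S, ‖a j‖ ≤ 1 := Finset.prod_le_one (fun _ _ => norm_nonneg _) fun j _ => ha j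
    have h2 : ‖a i - b i‖ * ∏ j ∈ S, ‖a j‖ ≤ ‖a i - b i‖ * 1 :=
      mul_le_mul_of_nonneg_left h1 (norm_nonneg _)
    have h3 : ‖b i‖ * ‖∏ j ∈ S, a j - ∏ j ∈ S, b j‖ ≤ 1 * ‖∏ j ∈ S, a j - ∏ j ∈ S, b j‖ :=
      mul_le_mul_of_nonneg_right (hb i) (norm_nonneg _)
    linarith

section tor

variable {d L : ℕ} [NeZero L]

theorem char_chz (n : ℤ) (k : ZMod L) :
    (ZMod.stdAddChar (k * ((n : ℤ) : ZMod L)) : ℂ) = chz n ((k.val : ℝ) / L) := by
  have h1 : (((k.val : ℤ) * n : ℤ) : ZMod L) = k * ((n : ℤ) : ZMod L) := by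
    push_cast
    simp
  rw [← h1, ZMod.stdAddChar_coe]
  unfold chz
  congr 1
  push_cast
  ring

theorem char_sum {ι : Type} (S : Finset ι) (f : ι → ZMod L) :
    (ZMod.stdAddChar (∑ i ∈ S, f i) : ℂ) = ∏ i ∈ S, (ZMod.stdAddChar (f i) : ℂ) := by
  classical
  induction S using Finset.induction_on with
  | empty => simp
  | insert i S hi ih => rw [Finset.sum_insert hi, Finset.prod_insert hi, AddChar.map_add_eq_mul, ih]

theorem e_chz (k : T d L) (z : Fin d → ℤ) :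
    e k (fun i => ((z i : ℤ) : ZMod L)) = ∏ i, chz (z i) (((k i).val : ℝ) / L) := by
  unfold e
  rw [char_sum]
  exact Finset.prod_congr rfl fun i _ => char_chz (z i) (k i)

theorem conj_chz (n : ℤ) (x : ℝ) : (starRingEnd ℂ) (chz n x) = chz (-n) x := by
  unfold chz
  rw [← Complex.exp_conj, map_mul, Complex.conj_I, Complex.conj_ofReal]
  congr 1
  push_cast
  ring

theorem mv_chz (z : Fin d → ℤ) (s : ℝ) :
    mv (NN d L) (fun k : T d L => (∏ i, chz (z i) (((k i).val : ℝ) / L)) *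
      Complex.exp (Complex.I * ((-s * adj k : ℝ) : ℂ))) = ∏ i, cz L (z i) s := by
  have h1 : ∀ k : T d L, (∏ i, chz (z i) (((k i).val : ℝ) / L)) *
      Complex.exp (Complex.I * ((-s * adj k : ℝ) : ℂ)) = ∏ i, hh (z i) s (((k i).val : ℝ) / L) := by
    intro k
    rw [exp_adj, ← Finset.prod_mul_distrib]
    rfl
  simp only [h1]
  rw [mv_prod fun i x => hh (z i) s ((x.val : ℝ) / L)]
  rfl

theorem mv_re (z : Fin d → ℤ) (s : ℝ) :
    mv (NN d L) (fun k : T d L =>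
        (((e k (fun i => ((z i : ℤ) : ZMod L)) : ℂ).re : ℝ) : ℂ) *
          Complex.exp (Complex.I * ((-s * adj k : ℝ) : ℂ))) =
      1 / 2 * ((∏ i, cz L (z i) s) + ∏ i, cz L (-z i) s) := by
  have h1 : ∀ k : T d L, (((e k (fun i => ((z i : ℤ) : ZMod L)) : ℂ).re : ℝ) : ℂ) *
          Complex.exp (Complex.I * ((-s * adj k : ℝ) : ℂ)) =
      1 / 2 * ((∏ i, chz (z i) (((k i).val : ℝ) / L)) *
          Complex.exp (Complex.I * ((-s * adj k : ℝ) : ℂ)) +
        (∏ i, chz (-z i) (((k i).val : ℝ) / L)) *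
          Complex.exp (Complex.I * ((-s * adj k : ℝ) : ℂ))) := by
    intro k
    have h2 : (((e k (fun i => ((z i : ℤ) : ZMod L)) : ℂ).re : ℝ) : ℂ) =
        1 / 2 * (e k (fun i => ((z i : ℤ) : ZMod L)) +
          (starRingEnd ℂ) (e k (fun i => ((z i : ℤ) : ZMod L)))) := by
      rw [Complex.add_conj]
      push_cast
      ring
    rw [h2, e_chz, map_prod]
    simp only [conj_chz]
    ring
  simp only [h1]
  rw [mv_mul, mv_add, mv_chz]
  congr 2
  exact mv_chz (fun i => -z i) s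

end tor

/-- JOB WE-AMPZ. -/
theorem t_AMPZ : Pool.Agent.Q218.WE.S_AMPZ := by
  intro d hd z
  have hdec : ∀ i, ∃ C : ℝ, 1 ≤ C ∧ ∀ s : ℝ, 0 ≤ s → ‖pg (z i) s‖ ≤ C * (s + 1) ^ (-(1 / 2) : ℝ) :=
    fun i => pg_decay (z i)
  choose c hc1 hc using hdec
  obtain ⟨C₁, hC₁⟩ : ∃ C₁ : ℝ, C₁ = ∏ i, c i := ⟨_, rfl⟩
  obtain ⟨C₂, hC₂⟩ : ∃ C₂ : ℝ, C₂ = ∑ i, (7 * |(z i : ℝ)| + 14) := ⟨_, rfl⟩
  have h10 : 0 ≤ C₁ := by
    rw [hC₁]
    exact Finset.prod_nonneg fun i _ => by linarith [hc1 i]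
  have h20 : 0 ≤ C₂ := by
    rw [hC₂]
    exact Finset.sum_nonneg fun i _ => by positivity
  have hFZ : ∀ s, FZ d z s = ∏ i, pg (z i) s := fun s => rfl
  refine ⟨C₁ + C₂, ⟨?_, ?_, by linarith, ?_⟩, ?_⟩
  · have h : FZ d z = fun s => ∏ i, pg (z i) s := funext hFZ
    rw [h]
    exact continuous_finsetProd _ fun i _ => pg_cont (z i)
  · intro s
    rw [hFZ, norm_prod]
    exact Finset.prod_le_one (fun _ _ => norm_nonneg _) fun i _ => pg_le _ _
  · intro s hs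
    rw [hFZ, norm_prod]
    have h1 : ∏ i, ‖pg (z i) s‖ ≤ ∏ i, (c i * (s + 1) ^ (-(1 / 2) : ℝ)) :=
      Finset.prod_le_prod (fun _ _ => norm_nonneg _) fun i _ => hc i s hs
    refine h1.trans ?_
    rw [Finset.prod_mul_distrib, Finset.prod_const, Finset.card_univ, Fintype.card_fin, ← hC₁,
      ← Real.rpow_natCast, ← Real.rpow_mul (by linarith)]
    have h2 : (s + 1) ^ (-(1 / 2) * (d : ℝ)) ≤ (s + 1) ^ (-(5 / 4) : ℝ) := by
      apply Real.rpow_le_rpow_of_exponent_le (by linarith)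
      have : (3 : ℝ) ≤ d := by exact_mod_cast hd
      linarith
    have h3 : (0 : ℝ) ≤ (s + 1) ^ (-(5 / 4) : ℝ) := by positivity
    calc C₁ * (s + 1) ^ (-(1 / 2) * (d : ℝ)) ≤ C₁ * (s + 1) ^ (-(5 / 4) : ℝ) := by gcongr
      _ ≤ (C₁ + C₂) * (s + 1) ^ (-(5 / 4) : ℝ) := by gcongr; linarith
  · intro L _ s hs
    have hLp : (0 : ℝ) < L := by exact_mod_cast Nat.pos_of_ne_zero (NeZero.ne L)
    rw [mv_re, hFZ]
    have hsum : ∑ i, (7 * |(z i : ℝ)| + 14 * |s|) / L ≤ C₂ / L * (1 + s) := by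
      rw [hC₂, Finset.sum_div, Finset.sum_mul]
      refine Finset.sum_le_sum fun i _ => ?_
      rw [abs_of_nonneg hs, div_mul_eq_mul_div]
      apply div_le_div_of_nonneg_right _ hLp.le
      have := abs_nonneg (z i : ℝ)
      nlinarith
    have h1 : ‖∏ i, cz L (z i) s - ∏ i, pg (z i) s‖ ≤ C₂ / L * (1 + s) := by
      refine (prod_lip _ _ _ (fun i => cz_le L (z i) s) (fun i => pg_le (z i) s)).trans ?_
      exact (Finset.sum_le_sum fun i _ => cz_pg L (z i) s).trans hsum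
    have h2 : ‖∏ i, cz L (-z i) s - ∏ i, pg (z i) s‖ ≤ C₂ / L * (1 + s) := by
      have h3 : ∏ i, pg (z i) s = ∏ i, pg (-z i) s :=
        Finset.prod_congr rfl fun i _ => (pg_neg (z i) s).symm
      rw [h3]
      refine (prod_lip _ _ _ (fun i => cz_le L (-z i) s) (fun i => pg_le (-z i) s)).trans ?_
      refine (Finset.sum_le_sum fun i _ => cz_pg L (-z i) s).trans (le_trans (le_of_eq ?_) hsum)
      refine Finset.sum_congr rfl fun i _ => ?_
      push_cast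
      rw [abs_neg]
    have e1 : 1 / 2 * ((∏ i, cz L (z i) s) + ∏ i, cz L (-z i) s) - ∏ i, pg (z i) s =
        1 / 2 * (∏ i, cz L (z i) s - ∏ i, pg (z i) s) +
        1 / 2 * (∏ i, cz L (-z i) s - ∏ i, pg (z i) s) := by ring
    rw [e1]
    refine (norm_add_le _ _).trans ?_
    rw [norm_mul, norm_mul]
    have h4 : ‖(1 / 2 : ℂ)‖ = 1 / 2 := by norm_num
    rw [h4]
    have h5 : C₂ / L * (1 + s) ≤ (C₁ + C₂) / L * (1 + s) := by
      gcongr
      linarith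
    linarith

end Pool.Agent.Q222.WE
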