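import Mathlib

/-! # Project WE, job CHI: the square sum of Gaussian variables -/

set_option autoImplicit false

open scoped BigOperators Topology ENNReal NNReal
open MeasureTheory Set ProbabilityTheory

namespace Pool.Agent.Q222.WE

theorem pdf_mul (x : ℝ) : gaussianPDFReal 0 1 x * Real.exp (x ^ 2 / 4) =
    (Real.sqrt (2 * Real.pi))⁻¹ * Real.exp (-(1 / 4) * x ^ 2) := by
  unfold gaussianPDFReal
  rw [mul_assoc, ← Real.exp_add]
  congr 1
  · simp
  · congr 1
    simp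
    ring

theorem int_exp4 : Integrable (fun x : ℝ => Real.exp (x ^ 2 / 4)) (gaussianReal 0 1) := by
  rw [gaussianReal_of_var_ne_zero 0 one_ne_zero]
  rw [integrable_withDensity_iff_integrable_smul' (measurable_gaussianPDF _ _)
    (ae_of_all _ fun x => gaussianPDF_lt_top)]
  have h : (fun x : ℝ => (gaussianPDF 0 1 x).toReal • Real.exp (x ^ 2 / 4)) =
      fun x : ℝ => (Real.sqrt (2 * Real.pi))⁻¹ * Real.exp (-(1 / 4) * x ^ 2) := by
    funext x
    rw [toReal_gaussianPDF, smul_eq_mul, pdf_mul]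
  rw [h]
  exact (integrable_exp_neg_mul_sq (by norm_num)).const_mul _

theorem val_exp4 : ∫ x : ℝ, Real.exp (x ^ 2 / 4) ∂(gaussianReal 0 1) = Real.sqrt 2 := by
  rw [integral_gaussianReal_eq_integral_smul one_ne_zero]
  simp_rw [smul_eq_mul, pdf_mul]
  rw [integral_const_mul, integral_gaussian]
  rw [← Real.sqrt_inv, ← Real.sqrt_mul (by positivity)]
  congr 1
  field_simp
  norm_num

theorem sqrt_two_le : Real.sqrt 2 ≤ Real.exp 1 := by
  have h1 := Real.add_one_le_exp (1 : ℝ)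
  have h2 : Real.sqrt 2 ≤ 2 := by
    rw [Real.sqrt_le_left (by norm_num)]
    norm_num
  linarith

theorem chi_gen {ι : Type} (Λ : Finset ι) :
    (Measure.infinitePi fun _ : ι => gaussianReal 0 1).real
      {ω | 8 * (Λ.card : ℝ) < ∑ x ∈ Λ, ω x ^ 2} ≤ Real.exp (-(Λ.card : ℝ)) := by
  obtain ⟨g, hg⟩ : ∃ g : (Λ → ℝ) → ℝ, g = fun y => ∏ i, Real.exp (y i ^ 2 / 4) := ⟨_, rfl⟩
  have hint : Integrable g (Measure.pi fun _ : Λ => gaussianReal 0 1) := by
    rw [hg]
    exact Integrable.fintype_prod (f := fun (_ : Λ) (x : ℝ) => Real.exp (x ^ 2 / 4)) fun _ => int_exp4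
  have hval : ∫ y, g y ∂(Measure.pi fun _ : Λ => gaussianReal 0 1) = Real.sqrt 2 ^ Λ.card := by
    rw [hg, integral_fintype_prod_eq_prod (f := fun (_ : Λ) (x : ℝ) => Real.exp (x ^ 2 / 4))]
    rw [Finset.prod_congr rfl fun i _ => val_exp4, Finset.prod_const, Finset.card_univ,
      Fintype.card_coe]
  have h1 := integral_restrict_infinitePi (μ := fun _ : ι => gaussianReal 0 1) (s := Λ)
    hint.aestronglyMeasurable
  have hmp : MeasurePreserving (Λ.restrict : (ι → ℝ) → Λ → ℝ)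
      (Measure.infinitePi fun _ : ι => gaussianReal 0 1) (Measure.pi fun _ : Λ => gaussianReal 0 1) :=
    ⟨Finset.measurable_restrict Λ, Measure.infinitePi_map_restrict _⟩
  have hint2 : Integrable (fun ω : ι → ℝ => g (Λ.restrict ω))
      (Measure.infinitePi fun _ : ι => gaussianReal 0 1) := hmp.integrable_comp_of_integrable hint
  have hpos : ∀ ω : ι → ℝ, 0 ≤ g (Λ.restrict ω) := fun ω => by
    rw [hg]
    exact Finset.prod_nonneg fun _ _ => (Real.exp_pos _).le
  have h2 := mul_meas_ge_le_integral_of_nonneg (ae_of_all _ hpos) hint2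
    (Real.exp (2 * (Λ.card : ℝ)))
  rw [h1, hval] at h2
  have hgω : ∀ ω : ι → ℝ, g (Λ.restrict ω) = Real.exp ((∑ x ∈ Λ, ω x ^ 2) / 4) := by
    intro ω
    rw [hg]
    beta_reduce
    rw [← Real.exp_sum]
    congr 1
    rw [Finset.sum_div, ← Finset.sum_coe_sort Λ]
    rfl
  have h3 : (Measure.infinitePi fun _ : ι => gaussianReal 0 1).real
      {ω | 8 * (Λ.card : ℝ) < ∑ x ∈ Λ, ω x ^ 2} ≤
      (Measure.infinitePi fun _ : ι => gaussianReal 0 1).real
        {ω | Real.exp (2 * (Λ.card : ℝ)) ≤ g (Λ.restrict ω)} := by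
    refine measureReal_mono ?_
    intro ω hω
    simp only [Set.mem_ofPred_eq] at hω ⊢
    rw [hgω, Real.exp_le_exp]
    linarith
  have h4 : Real.sqrt 2 ^ Λ.card ≤ Real.exp (Λ.card : ℝ) := by
    calc Real.sqrt 2 ^ Λ.card ≤ Real.exp 1 ^ Λ.card :=
          pow_le_pow_left₀ (Real.sqrt_nonneg _) sqrt_two_le _
      _ = Real.exp (Λ.card : ℝ) := by rw [← Real.exp_nat_mul, mul_one]
  have h5 : Real.exp (2 * (Λ.card : ℝ)) * (Measure.infinitePi fun _ : ι => gaussianReal 0 1).real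
      {ω | 8 * (Λ.card : ℝ) < ∑ x ∈ Λ, ω x ^ 2} ≤ Real.exp (Λ.card : ℝ) :=
    (mul_le_mul_of_nonneg_left h3 (Real.exp_pos _).le).trans (h2.trans h4)
  have h6 : Real.exp (-(Λ.card : ℝ)) * Real.exp (2 * (Λ.card : ℝ)) = Real.exp (Λ.card : ℝ) := by
    rw [← Real.exp_add]
    congr 1
    ring
  rw [← h6, mul_comm] at h5
  exact le_of_mul_le_mul_right h5 (Real.exp_pos _)

end Pool.Agent.Q222.WE
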