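import Pool.Agent.Q218.WE.Stm
import Pool.Agent.Q222.WE.CHIg

/-! # Project WE, job CHI -/

set_option autoImplicit false

namespace Pool.Agent.Q222.WE

/-- JOB WE-CHI. -/
theorem t_CHI : Pool.Agent.Q218.WE.S_CHI :=
  ⟨8, by norm_num, fun _ Λ => chi_gen Λ⟩

end Pool.Agent.Q222.WE
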