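import Mathlib

/-! # Project WE, job MUL: a Fourier multiplier (after `Pool.Agent.Q246.LE.FOUR` of helper246) -/

set_option autoImplicit false

open scoped BigOperators ComplexConjugate
open MeasureTheory UnitAddTorus

namespace Pool.Agent.Q222.WE

variable {d : ℕ}

/-- the phase -/
noncomputable def phg (p : Fin d → ℝ) (x : Fin d → ℤ) : ℂ :=
  Complex.exp (Complex.I * ((∑ i, p i * (x i : ℝ) : ℝ) : ℂ))

/-- the normalised measure of the torus -/
noncomputable def mt (d : ℕ) : Measure (UnitAddTorus (Fin d)) :=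
  Measure.pi fun _ => (AddCircle.haarAddCircle : Measure UnitAddCircle)

instance : IsProbabilityMeasure (mt d) := by
  unfold mt
  infer_instance

theorem int_four (n : ℤ) :
    ∫ t : UnitAddCircle, fourier n t ∂AddCircle.haarAddCircle = if n = 0 then 1 else 0 := by
  have h := (orthonormal_iff_ite.mp (orthonormal_fourier (T := 1))) 0 n
  simp only [ContinuousMap.inner_toLp, ← fourier_neg, ← fourier_add] at h
  simp only [neg_zero, add_zero] at h
  rw [show (∫ t : UnitAddCircle, fourier n t ∂AddCircle.haarAddCircle) =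
    (if 0 = n then 1 else 0) from h]
  simp only [eq_comm]

theorem int_mf (n : Fin d → ℤ) : ∫ θ, mFourier n θ ∂(mt d) = if n = 0 then 1 else 0 := by
  unfold mt
  simp only [mFourier, ContinuousMap.coe_mk]
  rw [integral_fintype_prod_eq_prod (𝕜 := ℂ) (fun i t => fourier (n i) t)]
  simp only [int_four]
  by_cases h : n = 0
  · simp [h]
  · rw [if_neg h]
    obtain ⟨i, hi⟩ := Function.ne_iff.mp h
    exact Finset.prod_eq_zero (Finset.mem_univ i) (by simpa using hi)

theorem mf_norm (n : Fin d → ℤ) (θ : UnitAddTorus (Fin d)) : ‖mFourier n θ‖ = 1 := by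
  simp only [mFourier, ContinuousMap.coe_mk, norm_prod]
  exact Finset.prod_eq_one fun i _ => Circle.norm_coe _

theorem ci {F : UnitAddTorus (Fin d) → ℂ} (h : Continuous F) : Integrable F (mt d) :=
  h.integrable_of_hasCompactSupport (HasCompactSupport.of_compactSpace F)

theorem ciR {F : UnitAddTorus (Fin d) → ℝ} (h : Continuous F) : Integrable F (mt d) :=
  h.integrable_of_hasCompactSupport (HasCompactSupport.of_compactSpace F)

/-- representatives -/
theorem rep (θ : UnitAddTorus (Fin d)) : ∃ p : Fin d → ℝ, (∀ i, |p i| ≤ Real.pi) ∧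
    ∀ n : Fin d → ℤ, mFourier (-n) θ = phg p n := by
  have h1 : ∀ i, ∃ r : ℝ, |r| ≤ 1 / 2 ∧ (r : UnitAddCircle) = θ i := by
    intro i
    obtain ⟨s, hs⟩ := QuotientAddGroup.mk_surjective (θ i)
    refine ⟨s - round s, abs_sub_round s, ?_⟩
    rw [← hs]
    have h2 : (((s - round s : ℝ)) : UnitAddCircle) = (s : UnitAddCircle) - ((round s : ℝ) : UnitAddCircle) := by
      exact AddCircle.coe_sub ..
    rw [h2]
    have h3 : ((round s : ℝ) : UnitAddCircle) = 0 := by
      rw [AddCircle.coe_eq_zero_iff]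
      exact ⟨round s, by simp⟩
    rw [h3, sub_zero]
  choose r hr1 hr2 using h1
  refine ⟨fun i => -(2 * Real.pi * r i), fun i => ?_, fun n => ?_⟩
  · rw [abs_neg, abs_mul, abs_of_pos (by positivity : (0 : ℝ) < 2 * Real.pi)]
    have := hr1 i
    nlinarith [Real.pi_pos]
  · unfold phg
    simp only [mFourier, ContinuousMap.coe_mk]
    have h4 : ∀ i, fourier ((-n) i) (θ i) =
        Complex.exp (Complex.I * ((-(2 * Real.pi * r i) * (n i : ℝ) : ℝ) : ℂ)) := by
      intro i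
      rw [← hr2 i, fourier_coe_apply]
      congr 1
      push_cast
      simp only [Pi.neg_apply, Int.cast_neg]
      ring
    rw [Finset.prod_congr rfl fun i _ => h4 i, ← Complex.exp_sum]
    congr 1
    push_cast
    rw [Finset.mul_sum]

/-- finite Fourier sums -/
noncomputable def Fs (Z : Finset (Fin d → ℤ)) (g : (Fin d → ℤ) → ℂ) (θ : UnitAddTorus (Fin d)) : ℂ :=
  ∑ z ∈ Z, g z * mFourier (-z) θ

theorem Fs_cont (Z : Finset (Fin d → ℤ)) (g : (Fin d → ℤ) → ℂ) : Continuous (Fs Z g) := by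
  unfold Fs
  fun_prop

/-- the series -/
noncomputable def Ps (P : (Fin d → ℤ) → ℂ) (θ : UnitAddTorus (Fin d)) : ℂ :=
  ∑' z : Fin d → ℤ, mFourier (-z) θ * P z

theorem Ps_le (P : (Fin d → ℤ) → ℂ) (z : Fin d → ℤ) (θ : UnitAddTorus (Fin d)) :
    ‖mFourier (-z) θ * P z‖ ≤ ‖P z‖ := by
  rw [norm_mul, mf_norm, one_mul]

theorem Ps_cont (P : (Fin d → ℤ) → ℂ) (hs : Summable fun z => ‖P z‖) : Continuous (Ps P) := by
  unfold Ps
  exact continuous_tsum (fun z => by fun_prop) hs fun z θ => Ps_le P z θ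

theorem Ps_coef (P : (Fin d → ℤ) → ℂ) (hs : Summable fun z => ‖P z‖) (n : Fin d → ℤ) :
    ∫ θ, mFourier n θ * Ps P θ ∂(mt d) = P n := by
  have h1 := hasSum_integral_of_summable_integral_norm (μ := mt d)
    (F := fun (z : Fin d → ℤ) θ => mFourier n θ * (mFourier (-z) θ * P z))
    (fun z => ci (by fun_prop)) (by
      refine Summable.of_nonneg_of_le (fun z => integral_nonneg fun θ => norm_nonneg _) (fun z => ?_) hs
      refine (integral_mono (ciR (by fun_prop)) (integrable_const ‖P z‖) fun θ => ?_).trans ?_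
      · simp only [norm_mul, mf_norm, one_mul]
        exact le_rfl
      · simp)
  have h2 : ∀ θ, ∑' z : Fin d → ℤ, mFourier n θ * (mFourier (-z) θ * P z) =
      mFourier n θ * Ps P θ := fun θ => tsum_mul_left
  simp only [h2] at h1
  have h3 : ∀ z : Fin d → ℤ, ∫ θ, mFourier n θ * (mFourier (-z) θ * P z) ∂(mt d) =
      if z = n then P z else 0 := by
    intro z
    have h4 : ∀ θ : UnitAddTorus (Fin d), mFourier n θ * (mFourier (-z) θ * P z) =
        mFourier (n + -z) θ * P z := by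
      intro θ
      rw [mFourier_add]
      ring
    simp only [h4]
    rw [integral_mul_const, int_mf]
    by_cases h5 : z = n
    · rw [if_pos h5, if_pos (by rw [h5]; simp), one_mul]
    · rw [if_neg h5, if_neg, zero_mul]
      intro h6
      exact h5 (by rw [← sub_eq_add_neg, sub_eq_zero] at h6; exact h6.symm)
  simp only [h3] at h1
  have h7 := h1.tsum_eq
  rw [tsum_ite_eq] at h7
  exact h7.symm

theorem quad (Λ : Finset (Fin d → ℤ)) (c : (Fin d → ℤ) → ℂ) (P : (Fin d → ℤ) → ℂ)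
    (hs : Summable fun z => ‖P z‖) :
    ∫ θ, ((‖Fs Λ c θ‖ ^ 2 : ℝ) : ℂ) * Ps P θ ∂(mt d) =
      ∑ x ∈ Λ, ∑ y ∈ Λ, (starRingEnd ℂ) (c x) * c y * P (x - y) := by
  have hc := Ps_cont P hs
  have h1 : ∀ θ, ((‖Fs Λ c θ‖ ^ 2 : ℝ) : ℂ) * Ps P θ =
      ∑ x ∈ Λ, ∑ y ∈ Λ, (starRingEnd ℂ) (c x) * c y * (mFourier (x - y) θ * Ps P θ) := by
    intro θ
    have h2 : ((‖Fs Λ c θ‖ ^ 2 : ℝ) : ℂ) = (starRingEnd ℂ) (Fs Λ c θ) * Fs Λ c θ := by
      rw [Complex.conj_mul']
      push_cast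
      ring
    rw [h2]
    unfold Fs
    rw [map_sum, Finset.sum_mul_sum, Finset.sum_mul]
    refine Finset.sum_congr rfl fun x _ => ?_
    rw [Finset.sum_mul]
    refine Finset.sum_congr rfl fun y _ => ?_
    rw [map_mul, ← mFourier_neg, neg_neg, sub_eq_add_neg, mFourier_add]
    ring
  simp only [h1]
  rw [integral_finsetSum _ fun x _ => ci (by fun_prop)]
  refine Finset.sum_congr rfl fun x _ => ?_
  rw [integral_finsetSum _ fun y _ => ci (by fun_prop)]
  refine Finset.sum_congr rfl fun y _ => ?_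
  rw [integral_const_mul, Ps_coef P hs]

theorem pars (Λ : Finset (Fin d → ℤ)) (c : (Fin d → ℤ) → ℂ) :
    ∫ θ, ‖Fs Λ c θ‖ ^ 2 ∂(mt d) = ∑ x ∈ Λ, ‖c x‖ ^ 2 := by
  have h1 : ∀ θ, ((‖Fs Λ c θ‖ ^ 2 : ℝ) : ℂ) =
      ∑ x ∈ Λ, ∑ y ∈ Λ, (starRingEnd ℂ) (c x) * c y * (mFourier (x - y) θ) := by
    intro θ
    have h2 : ((‖Fs Λ c θ‖ ^ 2 : ℝ) : ℂ) = (starRingEnd ℂ) (Fs Λ c θ) * Fs Λ c θ := by
      rw [Complex.conj_mul']
      push_cast
      ring
    rw [h2]
    unfold Fs
    rw [map_sum, Finset.sum_mul_sum]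
    refine Finset.sum_congr rfl fun x _ => ?_
    refine Finset.sum_congr rfl fun y _ => ?_
    rw [map_mul, ← mFourier_neg, neg_neg, sub_eq_add_neg, mFourier_add]
    ring
  have h3 : ((∫ θ, ‖Fs Λ c θ‖ ^ 2 ∂(mt d) : ℝ) : ℂ) = ((∑ x ∈ Λ, ‖c x‖ ^ 2 : ℝ) : ℂ) := by
    rw [← integral_complex_ofReal]
    simp only [h1]
    rw [integral_finsetSum _ fun x _ => ci (by fun_prop)]
    push_cast
    refine Finset.sum_congr rfl fun x hx => ?_
    rw [integral_finsetSum _ fun y _ => ci (by fun_prop)]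
    have h4 : ∀ y ∈ Λ, ∫ θ, (starRingEnd ℂ) (c x) * c y * (mFourier (x - y) θ) ∂(mt d) =
        if x = y then (starRingEnd ℂ) (c x) * c y else 0 := by
      intro y _
      rw [integral_const_mul, int_mf]
      by_cases h5 : x = y
      · rw [if_pos h5, if_pos (by rw [h5]; simp), mul_one]
      · rw [if_neg h5, if_neg (sub_ne_zero.2 h5), mul_zero]
    rw [Finset.sum_congr rfl h4, Finset.sum_ite_eq, if_pos hx, Complex.conj_mul']
  exact_mod_cast h3

theorem mul_gen (Λ : Finset (Fin d → ℤ)) (c : (Fin d → ℤ) → ℂ) (P : (Fin d → ℤ) → ℂ) (ε : ℝ)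
    (hs : Summable fun z => ‖P z‖)
    (hP : ∀ p : Fin d → ℝ, (∀ i, |p i| ≤ Real.pi) → ‖∑' z : Fin d → ℤ, phg p z * P z‖ ≤ ε) :
    ‖∑ x ∈ Λ, ∑ y ∈ Λ, (starRingEnd ℂ) (c x) * c y * P (x - y)‖ ≤ ε * ∑ x ∈ Λ, ‖c x‖ ^ 2 := by
  rw [← quad Λ c P hs]
  have hcc := Ps_cont P hs
  have hF := Fs_cont Λ c
  refine (norm_integral_le_integral_norm _).trans ?_
  rw [← pars Λ c, ← integral_const_mul]
  refine integral_mono (ciR (by fun_prop)) (ciR (by fun_prop)) fun θ => ?_
  beta_reduce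
  obtain ⟨p, hp1, hp2⟩ := rep θ
  have h4 : Ps P θ = ∑' z : Fin d → ℤ, phg p z * P z := by
    unfold Ps
    exact tsum_congr fun z => by rw [hp2]
  have h5 := hP p hp1
  rw [← h4] at h5
  rw [norm_mul, Complex.norm_real, Real.norm_of_nonneg (sq_nonneg _), mul_comm]
  exact mul_le_mul_of_nonneg_right h5 (sq_nonneg _)

end Pool.Agent.Q222.WE
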