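import Pool.Agent.Q218.WE.Stm
import Pool.Agent.Q222.WE.MULg

/-! # Project WE, job MUL -/

set_option autoImplicit false

namespace Pool.Agent.Q222.WE

/-- JOB WE-MUL. -/
theorem t_MUL : Pool.Agent.Q218.WE.S_MUL := by
  intro d Λ c P ε hs hP
  exact mul_gen Λ c P ε hs hP

end Pool.Agent.Q222.WE
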