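import Pool.Agent.Q222.WE.MULg

/-! # Project WE, job OPN: the norm of a translation invariant operator of finite range -/

set_option autoImplicit false

open scoped BigOperators ComplexConjugate
open MeasureTheory UnitAddTorus

namespace Pool.Agent.Q222.WE

variable {d : ℕ}

theorem phg_neg (p : Fin d → ℝ) (w : Fin d → ℤ) : phg p (-w) = phg (-p) w := by
  unfold phg
  congr 3
  refine Finset.sum_congr rfl fun i _ => ?_
  rw [Pi.neg_apply, Pi.neg_apply]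
  push_cast
  ring

/-- the convolution with a function cut off -/
theorem Fs_cv (Z Λ Z' : Finset (Fin d → ℤ)) (o u : (Fin d → ℤ) → ℂ)
    (hZ' : ∀ y ∈ Λ, ∀ w ∈ Z, y - w ∈ Z') (θ : UnitAddTorus (Fin d)) :
    Fs Z' (fun x => ∑ w ∈ Z, o w * (if x + w ∈ Λ then u (x + w) else 0)) θ =
      (∑ w ∈ Z, o w * mFourier w θ) * Fs Λ u θ := by
  unfold Fs
  rw [Finset.sum_mul]
  simp_rw [Finset.sum_mul]
  rw [Finset.sum_comm]
  refine Finset.sum_congr rfl fun w hw => ?_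
  have h1 : ∑ x ∈ Z', o w * (if x + w ∈ Λ then u (x + w) else 0) * mFourier (-x) θ =
      ∑ x ∈ Z'.filter (fun x => x + w ∈ Λ), o w * u (x + w) * mFourier (-x) θ := by
    rw [Finset.sum_filter]
    refine Finset.sum_congr rfl fun x _ => ?_
    split_ifs
    · rfl
    · ring
  rw [h1, Finset.mul_sum]
  refine Finset.sum_nbij' (fun x => x + w) (fun y => y - w) ?_ ?_ ?_ ?_ ?_
  · intro x hx
    exact (Finset.mem_filter.1 hx).2
  · intro y hy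
    rw [Finset.mem_filter, sub_add_cancel]
    exact ⟨hZ' y hy w hw, hy⟩
  · intro x _
    exact add_sub_cancel_right _ _
  · intro y _
    exact sub_add_cancel _ _
  · intro x _
    have h2 : mFourier (-x) θ = mFourier w θ * mFourier (-(x + w)) θ := by
      rw [← mFourier_add]
      congr 2
      abel
    rw [h2]
    ring

theorem opn_fin (Z F Λ : Finset (Fin d → ℤ)) (o u : (Fin d → ℤ) → ℂ) (C : ℝ) (hC : 0 ≤ C)
    (ho : ∀ p : Fin d → ℝ, (∀ i, |p i| ≤ Real.pi) → ‖∑ w ∈ Z, o w * phg p w‖ ≤ C) :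
    ∑ x ∈ F, ‖∑ w ∈ Z, o w * (if x + w ∈ Λ then u (x + w) else 0)‖ ^ 2 ≤
      C ^ 2 * ∑ y ∈ Λ, ‖u y‖ ^ 2 := by
  classical
  obtain ⟨Z', hZ'⟩ : ∃ Z' : Finset (Fin d → ℤ), Z' = F ∪ (Λ ×ˢ Z).image fun q => q.1 - q.2 := ⟨_, rfl⟩
  have h1 : ∀ y ∈ Λ, ∀ w ∈ Z, y - w ∈ Z' := by
    intro y hy w hw
    rw [hZ', Finset.mem_union, Finset.mem_image]
    exact Or.inr ⟨(y, w), Finset.mem_product.2 ⟨hy, hw⟩, rfl⟩
  have h2 := pars Z' (fun x => ∑ w ∈ Z, o w * (if x + w ∈ Λ then u (x + w) else 0))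
  have h3 : ∑ x ∈ F, ‖∑ w ∈ Z, o w * (if x + w ∈ Λ then u (x + w) else 0)‖ ^ 2 ≤
      ∑ x ∈ Z', ‖∑ w ∈ Z, o w * (if x + w ∈ Λ then u (x + w) else 0)‖ ^ 2 := by
    refine Finset.sum_le_sum_of_subset_of_nonneg ?_ fun _ _ _ => sq_nonneg _
    rw [hZ']
    exact Finset.subset_union_left
  refine h3.trans ?_
  rw [← h2, ← pars Λ u, ← integral_const_mul]
  have hF := Fs_cont Λ u
  have hG := Fs_cont Z' (fun x => ∑ w ∈ Z, o w * (if x + w ∈ Λ then u (x + w) else 0))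
  refine integral_mono (ciR (by fun_prop)) (ciR (by fun_prop)) fun θ => ?_
  beta_reduce
  rw [Fs_cv Z Λ Z' o u h1, norm_mul, mul_pow]
  refine mul_le_mul_of_nonneg_right ?_ (sq_nonneg _)
  refine pow_le_pow_left₀ (norm_nonneg _) ?_ 2
  obtain ⟨p, hp1, hp2⟩ := rep θ
  have h4 : ∑ w ∈ Z, o w * mFourier w θ = ∑ w ∈ Z, o w * phg (-p) w := by
    refine Finset.sum_congr rfl fun w _ => ?_
    rw [← phg_neg, ← hp2, neg_neg]
  rw [h4]
  refine ho (-p) fun i => ?_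
  rw [Pi.neg_apply, abs_neg]
  exact hp1 i

theorem opn_gen (Z : Finset (Fin d → ℤ)) (o : (Fin d → ℤ) → ℂ) (C : ℝ) (hC : 0 ≤ C)
    (ho : ∀ p : Fin d → ℝ, (∀ i, |p i| ≤ Real.pi) → ‖∑ w ∈ Z, o w * phg p w‖ ≤ C)
    (u : (Fin d → ℤ) → ℂ) (hu : Summable fun x => ‖u x‖ ^ 2) :
    (Summable fun x => ‖∑ w ∈ Z, o w * u (x + w)‖ ^ 2) ∧
      ∑' x, ‖∑ w ∈ Z, o w * u (x + w)‖ ^ 2 ≤ C ^ 2 * ∑' x, ‖u x‖ ^ 2 := by
  classical
  have key : ∀ F : Finset (Fin d → ℤ), ∑ x ∈ F, ‖∑ w ∈ Z, o w * u (x + w)‖ ^ 2 ≤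
      C ^ 2 * ∑' x, ‖u x‖ ^ 2 := by
    intro F
    obtain ⟨Λ, hΛ⟩ : ∃ Λ : Finset (Fin d → ℤ), Λ = (F ×ˢ Z).image fun q => q.1 + q.2 := ⟨_, rfl⟩
    have h1 := opn_fin Z F Λ o u C hC ho
    have h2 : ∑ x ∈ F, ‖∑ w ∈ Z, o w * u (x + w)‖ ^ 2 =
        ∑ x ∈ F, ‖∑ w ∈ Z, o w * (if x + w ∈ Λ then u (x + w) else 0)‖ ^ 2 := by
      refine Finset.sum_congr rfl fun x hx => ?_
      congr 2
      refine Finset.sum_congr rfl fun w hw => ?_
      rw [if_pos]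
      rw [hΛ, Finset.mem_image]
      exact ⟨(x, w), Finset.mem_product.2 ⟨hx, hw⟩, rfl⟩
    rw [h2]
    refine h1.trans (mul_le_mul_of_nonneg_left ?_ (sq_nonneg _))
    exact hu.sum_le_tsum Λ fun _ _ => sq_nonneg _
  exact ⟨summable_of_sum_le (fun _ => sq_nonneg _) key,
    Real.tsum_le_of_sum_le (fun _ => sq_nonneg _) key⟩

end Pool.Agent.Q222.WE
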