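import Pool.Agent.Q218.WE.Stm
import Pool.Agent.Q222.WE.OPNg

/-! # Project WE, job OPN -/

set_option autoImplicit false

namespace Pool.Agent.Q222.WE

/-- JOB WE-OPN. -/
theorem t_OPN : Pool.Agent.Q218.WE.S_OPN := by
  intro d Z o C hC ho u hu
  exact opn_gen Z o C hC ho u hu

end Pool.Agent.Q222.WE
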