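import Pool.Agent.Q218.AD.Pl

/-! # Project WE, job PLA: Plancherel's theorem for two curves -/

set_option autoImplicit false

open scoped BigOperators Topology
open MeasureTheory Set Filter

namespace Pool.Agent.Q222.WE

open Pool.Agent.Q218.AD (La1 cut cut_int La1_cont planch1 sq_int)

/-! ### sums of integrable functions -/

theorem int_tsum {ι : Type} [Countable ι] {α : Type} [MeasurableSpace α] {μ : Measure α}
    {G : Type} [NormedAddCommGroup G] [NormedSpace ℝ G] {F : ι → α → G} (hF : ∀ i, Integrable (F i) μ) (hp : ∀ a, Summable fun i => F i a)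
    (hs : Summable fun i => ∫ a, ‖F i a‖ ∂μ) : Integrable (fun a => ∑' i, F i a) μ := by
  constructor
  · refine aestronglyMeasurable_of_tendsto_ae (u := (atTop : Filter (Finset ι)))
      (f := fun (s : Finset ι) a => ∑ i ∈ s, F i a) (fun s => ?_)
      (ae_of_all _ fun a => (hp a).hasSum)
    exact (integrable_finsetSum _ fun i _ => hF i).aestronglyMeasurable
  · unfold HasFiniteIntegral
    have h1 : ∫⁻ a, ‖∑' i, F i a‖ₑ ∂μ ≤ ∫⁻ a, ∑' i, ‖F i a‖ₑ ∂μ :=
      lintegral_mono fun a => enorm_tsum_le_tsum_enorm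
    refine h1.trans_lt ?_
    rw [lintegral_tsum fun i => (hF i).1.enorm]
    have h2 : ∀ i, ∫⁻ a, ‖F i a‖ₑ ∂μ = ENNReal.ofReal (∫ a, ‖F i a‖ ∂μ) := by
      intro i
      rw [ofReal_integral_norm_eq_lintegral_enorm (hF i)]
    simp_rw [h2]
    rw [← ENNReal.ofReal_tsum_of_nonneg (fun i => integral_nonneg fun a => norm_nonneg _) hs]
    exact ENNReal.ofReal_lt_top

/-! ### one site -/

variable {f g : ℝ → ℂ} {K t : ℝ}

/-- the integrand -/
noncomputable def li (f : ℝ → ℂ) (E t s : ℝ) : ℂ := Complex.exp ((Complex.I * E - t) * s) * f s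

theorem li_norm (f : ℝ → ℂ) (E t s : ℝ) : ‖li f E t s‖ = Real.exp (-t * s) * ‖f s‖ := by
  unfold li
  rw [norm_mul, Complex.norm_exp]
  congr 2
  simp

theorem li_int (hf : Continuous f) (hb : ∀ s, ‖f s‖ ≤ K) (ht : 0 < t) (E : ℝ) :
    IntegrableOn (li f E t) (Ioi 0) := by
  refine Integrable.mono' ((exp_neg_integrableOn_Ioi 0 ht).mul_const K) ?_ ?_
  · exact (Continuous.mul (by fun_prop) hf).aestronglyMeasurable
  · refine Filter.Eventually.of_forall fun s => ?_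
    rw [li_norm]
    exact mul_le_mul_of_nonneg_left (hb s) (Real.exp_pos _).le

theorem La1_add (hf : Continuous f) (hb : ∀ s, ‖f s‖ ≤ K) (hg : Continuous g) (hc : ∀ s, ‖g s‖ ≤ K)
    (ht : 0 < t) (c : ℂ) (E : ℝ) :
    La1 (fun s => f s + c * g s) E t = La1 f E t + c * La1 g E t := by
  have h1 := li_int hf hb ht E
  have h2 := li_int hg hc ht E
  have e1 : La1 f E t = ∫ s in Ioi (0 : ℝ), li f E t s := rfl
  have e2 : La1 g E t = ∫ s in Ioi (0 : ℝ), li g E t s := rfl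
  rw [e1, e2, ← integral_const_mul, ← integral_add h1 (h2.const_mul c)]
  unfold La1
  refine integral_congr_ae (ae_of_all _ fun s => ?_)
  beta_reduce
  unfold li
  ring

theorem La1_smul (f : ℝ → ℂ) (E t : ℝ) (c : ℂ) : La1 (fun s => c * f s) E t = c * La1 f E t := by
  unfold La1
  rw [← integral_const_mul]
  refine integral_congr_ae (ae_of_all _ fun s => ?_)
  beta_reduce
  ring

/-- the square integral with weight -/
theorem sqw_int (hf : Continuous f) (hb : ∀ s, ‖f s‖ ≤ K) {κ : ℝ} (hκ : 0 < κ) :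
    IntegrableOn (fun s => Real.exp (-κ * s) * ‖f s‖ ^ 2) (Ioi (0 : ℝ)) := by
  refine Integrable.mono' ((exp_neg_integrableOn_Ioi 0 hκ).mul_const (K ^ 2)) ?_ ?_
  · exact (Continuous.mul (by fun_prop) (hf.norm.pow 2)).aestronglyMeasurable
  · refine Filter.Eventually.of_forall fun s => ?_
    rw [norm_mul, Real.norm_eq_abs, abs_of_pos (Real.exp_pos _), norm_pow, norm_norm]
    exact mul_le_mul_of_nonneg_left (pow_le_pow_left₀ (norm_nonneg _) (hb s) 2) (Real.exp_pos _).le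

theorem planchK (hf : Continuous f) (hb : ∀ s, ‖f s‖ ≤ K) (ht : 0 < t) :
    Continuous (fun E : ℝ => La1 f E t) ∧ Integrable (fun E : ℝ => ‖La1 f E t‖ ^ 2) ∧
    ∫ E : ℝ, ‖La1 f E t‖ ^ 2 =
      2 * Real.pi * ∫ s in Ioi (0 : ℝ), Real.exp (-(2 * t) * s) * ‖f s‖ ^ 2 := by
  have hK : 0 ≤ K := (norm_nonneg _).trans (hb 0)
  obtain ⟨k, hk⟩ : ∃ k : ℝ, k = K + 1 := ⟨_, rfl⟩
  have hk0 : 0 < k := by linarith
  have hkc : ((k : ℝ) : ℂ) ≠ 0 := by exact_mod_cast hk0.ne'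
  obtain ⟨h, hh⟩ : ∃ h : ℝ → ℂ, h = fun s => ((k⁻¹ : ℝ) : ℂ) * f s := ⟨_, rfl⟩
  have h1 : Continuous h := by
    rw [hh]
    fun_prop
  have h2 : ∀ s, ‖h s‖ ≤ 1 := by
    intro s
    rw [hh]
    beta_reduce
    rw [norm_mul, Complex.norm_real, Real.norm_of_nonneg (by positivity), inv_mul_le_iff₀ hk0, mul_one]
    exact (hb s).trans (by linarith)
  have hfh : f = fun s => ((k : ℝ) : ℂ) * h s := by
    funext s
    rw [hh]
    beta_reduce
    push_cast
    rw [mul_inv_cancel_left₀ hkc]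
  have h3 : ∀ E : ℝ, La1 f E t = ((k : ℝ) : ℂ) * La1 h E t := by
    intro E
    conv_lhs => rw [hfh]
    exact La1_smul h E t _
  obtain ⟨h4, h5⟩ := planch1 h1 h2 ht
  have h6 := La1_cont h1 h2 ht
  have h7 : ∀ E : ℝ, ‖La1 f E t‖ ^ 2 = k ^ 2 * ‖La1 h E t‖ ^ 2 := by
    intro E
    rw [h3, norm_mul, mul_pow, Complex.norm_real, Real.norm_of_nonneg hk0.le]
  refine ⟨?_, ?_, ?_⟩
  · simp_rw [h3]
    exact continuous_const.mul h6
  · simp_rw [h7]
    exact h4.const_mul _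
  · simp_rw [h7]
    rw [integral_const_mul, h5]
    have h8 : ∫ s in Ioi (0 : ℝ), Real.exp (-(2 * t) * s) * ‖f s‖ ^ 2 =
        k ^ 2 * ∫ s in Ioi (0 : ℝ), Real.exp (-(2 * t) * s) * ‖h s‖ ^ 2 := by
      rw [← integral_const_mul]
      refine integral_congr_ae (ae_of_all _ fun s => ?_)
      beta_reduce
      have h9 : ‖f s‖ = k * ‖h s‖ := by
        conv_lhs => rw [hfh]
        beta_reduce
        rw [norm_mul, Complex.norm_real, Real.norm_of_nonneg hk0.le]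
      rw [h9]
      ring
    rw [h8]
    ring

/-- polarisation -/
theorem polar (z w : ℂ) : z * (starRingEnd ℂ) w = 1 / 4 * (((‖z + 1 * w‖ ^ 2 : ℝ) : ℂ) -
    ((‖z + (-1) * w‖ ^ 2 : ℝ) : ℂ) + Complex.I * ((‖z + Complex.I * w‖ ^ 2 : ℝ) : ℂ) -
    Complex.I * ((‖z + (-Complex.I) * w‖ ^ 2 : ℝ) : ℂ)) := by
  have h : ∀ u : ℂ, ((‖u‖ ^ 2 : ℝ) : ℂ) = (u.re : ℂ) ^ 2 + (u.im : ℂ) ^ 2 := by
    intro u
    rw [← Complex.normSq_eq_norm_sq, Complex.normSq_apply]
    push_cast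
    ring
  rw [h, h, h, h]
  apply Complex.ext
  · simp
    ring_nf
    simp
    ring_nf
  · simp
    ring_nf
    simp
    ring_nf

/-- the integral of a combination of four functions -/
theorem four_int {α : Type} [MeasurableSpace α] {μ : Measure α} {a b c d : α → ℝ} {h : α → ℂ}
    (ha : Integrable a μ) (hb : Integrable b μ) (hc : Integrable c μ) (hd : Integrable d μ)
    (hh : ∀ x, h x = 1 / 4 * (((a x : ℝ) : ℂ) - ((b x : ℝ) : ℂ) + Complex.I * ((c x : ℝ) : ℂ) -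
      Complex.I * ((d x : ℝ) : ℂ))) :
    Integrable h μ ∧ ∫ x, h x ∂μ = 1 / 4 * (((∫ x, a x ∂μ : ℝ) : ℂ) - ((∫ x, b x ∂μ : ℝ) : ℂ) +
      Complex.I * ((∫ x, c x ∂μ : ℝ) : ℂ) - Complex.I * ((∫ x, d x ∂μ : ℝ) : ℂ)) := by
  have A : Integrable (fun x => ((a x : ℝ) : ℂ)) μ := ha.ofReal
  have B : Integrable (fun x => ((b x : ℝ) : ℂ)) μ := hb.ofReal
  have C : Integrable (fun x => Complex.I * ((c x : ℝ) : ℂ)) μ := hc.ofReal.const_mul _
  have D : Integrable (fun x => Complex.I * ((d x : ℝ) : ℂ)) μ := hd.ofReal.const_mul _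
  have AB : Integrable (fun x => ((a x : ℝ) : ℂ) - ((b x : ℝ) : ℂ)) μ := A.sub B
  have ABC : Integrable (fun x => ((a x : ℝ) : ℂ) - ((b x : ℝ) : ℂ) + Complex.I * ((c x : ℝ) : ℂ)) μ :=
    AB.add C
  have ABCD : Integrable (fun x => ((a x : ℝ) : ℂ) - ((b x : ℝ) : ℂ) + Complex.I * ((c x : ℝ) : ℂ) -
      Complex.I * ((d x : ℝ) : ℂ)) μ := ABC.sub D
  have hfun : h = fun x => 1 / 4 * (((a x : ℝ) : ℂ) - ((b x : ℝ) : ℂ) + Complex.I * ((c x : ℝ) : ℂ) -
      Complex.I * ((d x : ℝ) : ℂ)) := funext hh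
  constructor
  · rw [hfun]
    exact ABCD.const_mul _
  · rw [hfun, integral_const_mul, integral_sub ABC D, integral_add AB C, integral_sub A B,
      integral_const_mul, integral_const_mul, integral_complex_ofReal, integral_complex_ofReal,
      integral_complex_ofReal, integral_complex_ofReal]

/-- Plancherel for two functions -/
theorem planch2 (hf : Continuous f) (hb : ∀ s, ‖f s‖ ≤ K) (hg : Continuous g) (hc : ∀ s, ‖g s‖ ≤ K)
    (ht : 0 < t) : Integrable (fun E : ℝ => La1 f E t * (starRingEnd ℂ) (La1 g E t)) ∧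
    ∫ E : ℝ, La1 f E t * (starRingEnd ℂ) (La1 g E t) =
      2 * Real.pi * ∫ s in Ioi (0 : ℝ), ((Real.exp (-(2 * t) * s) : ℝ) : ℂ) *
        (f s * (starRingEnd ℂ) (g s)) := by
  have key : ∀ c : ℂ, ‖c‖ = 1 → Integrable (fun E : ℝ => ‖La1 f E t + c * La1 g E t‖ ^ 2) ∧
      ∫ E : ℝ, ‖La1 f E t + c * La1 g E t‖ ^ 2 =
        2 * Real.pi * ∫ s in Ioi (0 : ℝ), Real.exp (-(2 * t) * s) * ‖f s + c * g s‖ ^ 2 := by
    intro c hc1
    have h1 := planchK (f := fun s => f s + c * g s) (K := K + K) (t := t) (by fun_prop)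
      (fun s => (norm_add_le _ _).trans (add_le_add (hb s) (by rw [norm_mul, hc1, one_mul]; exact hc s)))
      ht
    have h2 : ∀ E : ℝ, La1 (fun s => f s + c * g s) E t = La1 f E t + c * La1 g E t :=
      fun E => La1_add hf hb hg hc ht c E
    simp_rw [h2] at h1
    exact h1.2
  have key2 : ∀ c : ℂ, ‖c‖ = 1 →
      IntegrableOn (fun s => Real.exp (-(2 * t) * s) * ‖f s + c * g s‖ ^ 2) (Ioi (0 : ℝ)) := by
    intro c hc1
    exact sqw_int (f := fun s => f s + c * g s) (K := K + K) (by fun_prop)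
      (fun s => (norm_add_le _ _).trans (add_le_add (hb s) (by rw [norm_mul, hc1, one_mul]; exact hc s)))
      (by positivity)
  obtain ⟨a1, b1⟩ := key 1 (by simp)
  obtain ⟨a2, b2⟩ := key (-1) (by simp)
  obtain ⟨a3, b3⟩ := key Complex.I (by simp)
  obtain ⟨a4, b4⟩ := key (-Complex.I) (by simp)
  have c1 := key2 1 (by simp)
  have c2 := key2 (-1) (by simp)
  have c3 := key2 Complex.I (by simp)
  have c4 := key2 (-Complex.I) (by simp)
  obtain ⟨e1, e2⟩ := four_int (h := fun E : ℝ => La1 f E t * (starRingEnd ℂ) (La1 g E t))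
    a1 a2 a3 a4 fun E => polar _ _
  obtain ⟨-, e3⟩ := four_int (h := fun s : ℝ => ((Real.exp (-(2 * t) * s) : ℝ) : ℂ) *
        (f s * (starRingEnd ℂ) (g s))) c1 c2 c3 c4 fun s => by
    rw [polar (f s) (g s)]
    push_cast
    ring
  refine ⟨e1, ?_⟩
  rw [e2, e3, b1, b2, b3, b4]
  push_cast
  ring

/-- the Cauchy–Schwarz inequality -/
theorem La1_cs (hf : Continuous f) (hb : ∀ s, ‖f s‖ ≤ K) (ht : 0 < t) (E : ℝ) :
    ‖La1 f E t‖ ^ 2 ≤ t⁻¹ * ∫ s in Ioi (0 : ℝ), Real.exp (-t * s) * ‖f s‖ ^ 2 := by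
  have hw : IntegrableOn (fun s : ℝ => Real.exp (-t * s)) (Ioi 0) := exp_neg_integrableOn_Ioi 0 ht
  have hv : ∫ s in Ioi (0 : ℝ), Real.exp (-t * s) = t⁻¹ := by
    have h := integral_exp_mul_Ioi (a := -t) (by linarith) 0
    rw [h]
    simp
  have h1 : IntegrableOn (fun s : ℝ => Real.exp (-t * s) * ‖f s‖) (Ioi 0) := by
    refine Integrable.mono' (hw.mul_const K) ?_ ?_
    · exact (Continuous.mul (by fun_prop) hf.norm).aestronglyMeasurable
    · refine Filter.Eventually.of_forall fun s => ?_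
      rw [norm_mul, Real.norm_eq_abs, abs_of_pos (Real.exp_pos _), norm_norm]
      exact mul_le_mul_of_nonneg_left (hb s) (Real.exp_pos _).le
  have h2 := sqw_int hf hb ht
  obtain ⟨q, hq⟩ : ∃ q : ℝ, q = ∫ s in Ioi (0 : ℝ), Real.exp (-t * s) * ‖f s‖ := ⟨_, rfl⟩
  have h3 : ‖La1 f E t‖ ≤ q := by
    rw [hq]
    have e1 : La1 f E t = ∫ s in Ioi (0 : ℝ), li f E t s := rfl
    rw [e1]
    refine (norm_integral_le_integral_norm _).trans (le_of_eq ?_)
    exact integral_congr_ae (ae_of_all _ fun s => li_norm f E t s)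
  have h4 : (0 : ℝ) ≤ ∫ s in Ioi (0 : ℝ), (Real.exp (-t * s) * ‖f s‖ ^ 2 -
      (2 * (t * q)) * (Real.exp (-t * s) * ‖f s‖) + (t * q) ^ 2 * Real.exp (-t * s)) := by
    refine integral_nonneg fun s => ?_
    have h5 : Real.exp (-t * s) * ‖f s‖ ^ 2 -
      (2 * (t * q)) * (Real.exp (-t * s) * ‖f s‖) + (t * q) ^ 2 * Real.exp (-t * s) =
      Real.exp (-t * s) * (‖f s‖ - t * q) ^ 2 := by ring
    show 0 ≤ Real.exp (-t * s) * ‖f s‖ ^ 2 -
      (2 * (t * q)) * (Real.exp (-t * s) * ‖f s‖) + (t * q) ^ 2 * Real.exp (-t * s)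
    rw [h5]
    positivity
  have h5 : IntegrableOn (fun s : ℝ => Real.exp (-t * s) * ‖f s‖ ^ 2 -
      (2 * (t * q)) * (Real.exp (-t * s) * ‖f s‖)) (Ioi 0) := h2.sub (h1.const_mul _)
  rw [integral_add h5 (hw.const_mul _), integral_sub h2 (h1.const_mul _), integral_const_mul,
    integral_const_mul, hv, ← hq] at h4
  have h6 : (t * q) ^ 2 * t⁻¹ = t * q ^ 2 := by
    field_simp
  rw [h6] at h4
  have h7 : t * q ^ 2 ≤ ∫ s in Ioi (0 : ℝ), Real.exp (-t * s) * ‖f s‖ ^ 2 := by nlinarith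
  have h8 : ‖La1 f E t‖ ^ 2 ≤ q ^ 2 := pow_le_pow_left₀ (norm_nonneg _) h3 2
  refine h8.trans ?_
  rw [inv_mul_eq_div, le_div_iff₀ ht]
  linarith

/-! ### all sites -/

section sites

variable {ι : Type} [Countable ι] {F H : ℝ → ι → ℂ} {A B η : ℝ}

theorem site_bd (hA : ∀ t, (Summable fun x => ‖F t x‖ ^ 2) ∧ ∑' x, ‖F t x‖ ^ 2 ≤ A) (t : ℝ) (x : ι) :
    ‖F t x‖ ≤ Real.sqrt A := by
  refine Real.le_sqrt_of_sq_le ?_
  exact ((hA t).1.le_tsum x fun _ _ => sq_nonneg _).trans (hA t).2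

theorem sum_w (hF : ∀ x, Continuous fun t => F t x)
    (hA : ∀ t, (Summable fun x => ‖F t x‖ ^ 2) ∧ ∑' x, ‖F t x‖ ^ 2 ≤ A) {κ : ℝ} (hκ : 0 < κ) :
    Summable fun x => ∫ s in Ioi (0 : ℝ), Real.exp (-κ * s) * ‖F s x‖ ^ 2 := by
  refine summable_of_sum_le (c := A * κ⁻¹) (fun x => integral_nonneg fun s => by positivity)
    fun S => ?_
  have hi : ∀ x ∈ S, IntegrableOn (fun s => Real.exp (-κ * s) * ‖F s x‖ ^ 2) (Ioi (0 : ℝ)) :=
    fun x _ => sqw_int (hF x) (fun s => site_bd hA s x) hκ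
  rw [← integral_finsetSum _ hi]
  have hv : ∫ s in Ioi (0 : ℝ), Real.exp (-κ * s) = κ⁻¹ := by
    have h := integral_exp_mul_Ioi (a := -κ) (by linarith) 0
    rw [h]
    simp
  rw [← hv, ← integral_const_mul]
  refine integral_mono (integrable_finsetSum _ hi)
    ((exp_neg_integrableOn_Ioi 0 hκ).const_mul _) fun s => ?_
  beta_reduce
  rw [← Finset.mul_sum, mul_comm]
  refine mul_le_mul_of_nonneg_right ?_ (Real.exp_pos _).le
  exact ((hA s).1.sum_le_tsum S fun x _ => sq_nonneg _).trans (hA s).2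

theorem pla_one (hF : ∀ x, Continuous fun t => F t x)
    (hA : ∀ t, (Summable fun x => ‖F t x‖ ^ 2) ∧ ∑' x, ‖F t x‖ ^ 2 ≤ A) (hη : 0 < η) :
    (∀ E, Summable fun x => ‖La1 (fun s => F s x) E η‖ ^ 2) ∧
    (Summable fun x => ∫ E : ℝ, ‖La1 (fun s => F s x) E η‖ ^ 2) ∧
    (Integrable fun E => ∑' x, ‖La1 (fun s => F s x) E η‖ ^ 2) ∧
    ∫ E : ℝ, ∑' x, ‖La1 (fun s => F s x) E η‖ ^ 2 = 2 * Real.pi *
        ∫ t in Ioi (0 : ℝ), Real.exp (-(2 * η) * t) * ∑' x, ‖F t x‖ ^ 2 := by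
  have h1 : ∀ E, Summable fun x => ‖La1 (fun s => F s x) E η‖ ^ 2 := by
    intro E
    refine Summable.of_nonneg_of_le (fun x => sq_nonneg _)
      (fun x => La1_cs (hF x) (fun s => site_bd hA s x) hη E) ?_
    exact (sum_w hF hA hη).mul_left _
  have h2 : ∀ x, Integrable (fun E : ℝ => ‖La1 (fun s => F s x) E η‖ ^ 2) ∧
      ∫ E : ℝ, ‖La1 (fun s => F s x) E η‖ ^ 2 =
        2 * Real.pi * ∫ s in Ioi (0 : ℝ), Real.exp (-(2 * η) * s) * ‖F s x‖ ^ 2 :=
    fun x => (planchK (hF x) (fun s => site_bd hA s x) hη).2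
  have h3 := sum_w hF hA (κ := 2 * η) (by positivity)
  have h4 : Summable fun x => ∫ E : ℝ, ‖La1 (fun s => F s x) E η‖ ^ 2 := by
    simp_rw [fun x => (h2 x).2]
    exact h3.mul_left _
  have h5 : Summable fun x => ∫ E : ℝ, ‖‖La1 (fun s => F s x) E η‖ ^ 2‖ := by
    simp_rw [norm_pow, norm_norm]
    exact h4
  refine ⟨h1, h4, int_tsum (fun x => (h2 x).1) h1 h5, ?_⟩
  rw [← integral_tsum_of_summable_integral_norm (fun x => (h2 x).1) h5]
  simp_rw [fun x => (h2 x).2]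
  rw [tsum_mul_left]
  congr 1
  have h6 : ∀ x, IntegrableOn (fun s => Real.exp (-(2 * η) * s) * ‖F s x‖ ^ 2) (Ioi (0 : ℝ)) :=
    fun x => sqw_int (hF x) (fun s => site_bd hA s x) (by positivity)
  have h7 : Summable fun x => ∫ s in Ioi (0 : ℝ), ‖Real.exp (-(2 * η) * s) * ‖F s x‖ ^ 2‖ := by
    refine h3.congr fun x => ?_
    refine integral_congr_ae (ae_of_all _ fun s => ?_)
    beta_reduce
    rw [Real.norm_of_nonneg (by positivity)]
  rw [integral_tsum_of_summable_integral_norm h6 h7]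
  refine integral_congr_ae (ae_of_all _ fun s => ?_)
  beta_reduce
  rw [tsum_mul_left]

theorem nm_le (c z w : ℂ) (hc : ‖c‖ ≤ 1) :
    ‖c * (z * (starRingEnd ℂ) w)‖ ≤ 1 / 2 * (‖z‖ ^ 2 + ‖w‖ ^ 2) := by
  rw [norm_mul, norm_mul, Complex.norm_conj]
  have h1 : ‖c‖ * (‖z‖ * ‖w‖) ≤ ‖z‖ * ‖w‖ := mul_le_of_le_one_left (by positivity) hc
  nlinarith [sq_nonneg (‖z‖ - ‖w‖)]

theorem pla_gen (hF : ∀ x, Continuous fun t => F t x) (hH : ∀ x, Continuous fun t => H t x)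
    (hA : ∀ t, (Summable fun x => ‖F t x‖ ^ 2) ∧ ∑' x, ‖F t x‖ ^ 2 ≤ A)
    (hB : ∀ t, (Summable fun x => ‖H t x‖ ^ 2) ∧ ∑' x, ‖H t x‖ ^ 2 ≤ B)
    (c : ι → ℂ) (hc : ∀ x, ‖c x‖ ≤ 1) (hη : 0 < η) :
    (Integrable fun E : ℝ => ∑' x, c x * (La1 (fun s => F s x) E η *
      (starRingEnd ℂ) (La1 (fun s => H s x) E η))) ∧
    ∫ E : ℝ, ∑' x, c x * (La1 (fun s => F s x) E η *
      (starRingEnd ℂ) (La1 (fun s => H s x) E η)) = 2 * Real.pi *
        ∫ t in Ioi (0 : ℝ), ((Real.exp (-(2 * η) * t) : ℝ) : ℂ) *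
          ∑' x, c x * (F t x * (starRingEnd ℂ) (H t x)) := by
  obtain ⟨f1, f2, -, -⟩ := pla_one hF hA hη
  obtain ⟨g1, g2, -, -⟩ := pla_one hH hB hη
  obtain ⟨K, hK⟩ : ∃ K : ℝ, K = max (Real.sqrt A) (Real.sqrt B) := ⟨_, rfl⟩
  have bF : ∀ x s, ‖F s x‖ ≤ K := fun x s => (site_bd hA s x).trans (hK ▸ le_max_left _ _)
  have bH : ∀ x s, ‖H s x‖ ≤ K := fun x s => (site_bd hB s x).trans (hK ▸ le_max_right _ _)
  have h2 := fun x => planch2 (hF x) (bF x) (hH x) (bH x) hη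
  have kF := fun x => (planchK (hF x) (bF x) hη).2.1
  have kH := fun x => (planchK (hH x) (bH x) hη).2.1
  have h3 : ∀ x, Integrable fun E : ℝ => c x * (La1 (fun s => F s x) E η *
      (starRingEnd ℂ) (La1 (fun s => H s x) E η)) := fun x => (h2 x).1.const_mul _
  have h4 : ∀ E, Summable fun x => c x * (La1 (fun s => F s x) E η *
      (starRingEnd ℂ) (La1 (fun s => H s x) E η)) := by
    intro E
    exact Summable.of_norm_bounded (((f1 E).add (g1 E)).mul_left (1 / 2)) fun x => nm_le _ _ _ (hc x)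
  have h5 : Summable fun x => ∫ E : ℝ, ‖c x * (La1 (fun s => F s x) E η *
      (starRingEnd ℂ) (La1 (fun s => H s x) E η))‖ := by
    refine Summable.of_nonneg_of_le (fun x => integral_nonneg fun E => norm_nonneg _) (fun x => ?_)
      ((f2.add g2).mul_left (1 / 2))
    rw [← integral_add (kF x) (kH x), ← integral_const_mul]
    refine integral_mono (h3 x).norm (((kF x).add (kH x)).const_mul _) fun E => ?_
    exact nm_le _ _ _ (hc x)
  refine ⟨int_tsum h3 h4 h5, ?_⟩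
  rw [← integral_tsum_of_summable_integral_norm h3 h5]
  have h6 : ∀ x, ∫ E : ℝ, c x * (La1 (fun s => F s x) E η *
      (starRingEnd ℂ) (La1 (fun s => H s x) E η)) = 2 * Real.pi *
      ∫ s in Ioi (0 : ℝ), c x * (((Real.exp (-(2 * η) * s) : ℝ) : ℂ) *
        (F s x * (starRingEnd ℂ) (H s x))) := by
    intro x
    rw [integral_const_mul, (h2 x).2, integral_const_mul]
    ring
  simp_rw [h6]
  rw [tsum_mul_left]
  congr 1
  have wF := fun x => sqw_int (hF x) (bF x) (κ := 2 * η) (by positivity)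
  have wH := fun x => sqw_int (hH x) (bH x) (κ := 2 * η) (by positivity)
  have h8 : ∀ x s, ‖c x * (((Real.exp (-(2 * η) * s) : ℝ) : ℂ) *
        (F s x * (starRingEnd ℂ) (H s x)))‖ ≤ 1 / 2 * (Real.exp (-(2 * η) * s) * ‖F s x‖ ^ 2 +
          Real.exp (-(2 * η) * s) * ‖H s x‖ ^ 2) := by
    intro x s
    have e : c x * (((Real.exp (-(2 * η) * s) : ℝ) : ℂ) *
        (F s x * (starRingEnd ℂ) (H s x))) = ((Real.exp (-(2 * η) * s) : ℝ) : ℂ) *
        (c x * (F s x * (starRingEnd ℂ) (H s x))) := by ring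
    rw [e, norm_mul, Complex.norm_real, Real.norm_of_nonneg (Real.exp_pos _).le]
    have h9 := mul_le_mul_of_nonneg_left (nm_le (c x) (F s x) (H s x) (hc x))
      (Real.exp_pos (-(2 * η) * s)).le
    refine h9.trans (le_of_eq ?_)
    ring
  have h7 : ∀ x, IntegrableOn (fun s => c x * (((Real.exp (-(2 * η) * s) : ℝ) : ℂ) *
        (F s x * (starRingEnd ℂ) (H s x)))) (Ioi (0 : ℝ)) := by
    intro x
    refine Integrable.mono' (((wF x).add (wH x)).const_mul (1 / 2)) ?_ (ae_of_all _ fun s => h8 x s)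
    have h10 := hF x
    have h11 := hH x
    refine Continuous.aestronglyMeasurable ?_
    refine continuous_const.mul (Continuous.mul (by fun_prop) (h10.mul ?_))
    exact Complex.continuous_conj.comp h11
  have h9 : Summable fun x => ∫ s in Ioi (0 : ℝ), ‖c x * (((Real.exp (-(2 * η) * s) : ℝ) : ℂ) *
        (F s x * (starRingEnd ℂ) (H s x)))‖ := by
    refine Summable.of_nonneg_of_le (fun x => integral_nonneg fun E => norm_nonneg _) (fun x => ?_)
      (((sum_w hF hA (κ := 2 * η) (by positivity)).add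
        (sum_w hH hB (κ := 2 * η) (by positivity))).mul_left (1 / 2))
    rw [← integral_add (wF x) (wH x), ← integral_const_mul]
    exact integral_mono (h7 x).norm (((wF x).add (wH x)).const_mul _) fun s => h8 x s
  rw [integral_tsum_of_summable_integral_norm h7 h9]
  refine integral_congr_ae (ae_of_all _ fun s => ?_)
  beta_reduce
  rw [← tsum_mul_left]
  refine tsum_congr fun x => ?_
  ring

end sites

end Pool.Agent.Q222.WE
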