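import Pool.Agent.Q218.WE.Stm
import Pool.Agent.Q222.WE.PLAg

/-! # Project WE, job PLA -/

set_option autoImplicit false

namespace Pool.Agent.Q222.WE

/-- JOB WE-PLA. -/
theorem t_PLA : Pool.Agent.Q218.WE.S_PLA := by
  intro d f g A B hf hg hA hB c hc η hη
  obtain ⟨a1, -, a3, a4⟩ := pla_one hf hA hη
  obtain ⟨b1, -, -, -⟩ := pla_one hg hB hη
  obtain ⟨c1, c2⟩ := pla_gen hf hg hA hB c hc hη
  exact ⟨a1, b1, a3, a4, c1, c2⟩

end Pool.Agent.Q222.WE
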